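import Mathlib

/-!
# The Clements-Lindstroem theorem for products of chains, part 1: codes and initial segments

The box `{u : Fin n → ℕ | u ≤ m}` is ordered by `code m`, in which the last coordinate is the
most significant one.
-/

set_option autoImplicit false

namespace Pool.Agent.R407.CL

open Finset

/-- The rank (degree) of an exponent vector. -/
def rk {n : ℕ} (u : Fin n → ℕ) : ℕ := ∑ i, u i

/-- The mixed radix code of `u` with respect to the box `m`. -/
def code : ∀ {n : ℕ}, (Fin n → ℕ) → (Fin n → ℕ) → ℕ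
  | 0, _, _ => 0
  | _ + 1, m, u => u 0 + (m 0 + 1) * code (Fin.tail m) (Fin.tail u)

theorem rk_succ {n : ℕ} (u : Fin (n + 1) → ℕ) : rk u = u 0 + rk (Fin.tail u) := by
  unfold rk
  rw [Fin.sum_univ_succ]
  rfl

theorem rk_cons {n : ℕ} (a : ℕ) (u : Fin n → ℕ) :
    rk (Fin.cons a u : Fin (n + 1) → ℕ) = a + rk u := by
  rw [rk_succ]
  simp

theorem code_cons {n : ℕ} (m : Fin (n + 1) → ℕ) (a : ℕ) (u : Fin n → ℕ) :
    code m (Fin.cons a u) = a + (m 0 + 1) * code (Fin.tail m) u := by
  simp [code]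

theorem tail_le {n : ℕ} {u v : Fin (n + 1) → ℕ} (h : u ≤ v) : Fin.tail u ≤ Fin.tail v :=
  fun i => h i.succ

theorem cons_le {n : ℕ} {m : Fin (n + 1) → ℕ} {a : ℕ} {u : Fin n → ℕ} :
    (Fin.cons a u : Fin (n + 1) → ℕ) ≤ m ↔ a ≤ m 0 ∧ u ≤ Fin.tail m := by
  constructor
  · intro h
    refine ⟨by simpa using h 0, fun i => ?_⟩
    have := h i.succ
    simpa [Fin.tail] using this
  · rintro ⟨h1, h2⟩ i
    refine Fin.cases ?_ (fun j => ?_) i
    · simpa using h1
    · simpa [Fin.tail] using h2 j

theorem rk_mono {n : ℕ} {u v : Fin n → ℕ} (h : u ≤ v) : rk u ≤ rk v :=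
  Finset.sum_le_sum fun i _ => h i

theorem code_mono {n : ℕ} (m : Fin n → ℕ) {u v : Fin n → ℕ} (h : u ≤ v) :
    code m u ≤ code m v := by
  induction n with
  | zero => simp [code]
  | succ n ih =>
    simp only [code]
    exact Nat.add_le_add (h 0) (Nat.mul_le_mul_left _ (ih _ (tail_le h)))

theorem code_lt_of_tail {n : ℕ} {m u v : Fin (n + 1) → ℕ} (hu : u ≤ m)
    (h : code (Fin.tail m) (Fin.tail u) < code (Fin.tail m) (Fin.tail v)) :
    code m u < code m v := by
  simp only [code]
  have h1 : u 0 < m 0 + 1 := Nat.lt_succ_of_le (hu 0)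
  have h2 : (m 0 + 1) * (code (Fin.tail m) (Fin.tail u) + 1)
      ≤ (m 0 + 1) * code (Fin.tail m) (Fin.tail v) := Nat.mul_le_mul_left _ h
  nlinarith

theorem tail_of_code_le {n : ℕ} {m u v : Fin (n + 1) → ℕ} (hv : v ≤ m)
    (h : code m u ≤ code m v) :
    code (Fin.tail m) (Fin.tail u) ≤ code (Fin.tail m) (Fin.tail v) := by
  by_contra hc
  push Not at hc
  exact absurd (code_lt_of_tail hv hc) (by omega)

theorem code_inj {n : ℕ} {m u v : Fin n → ℕ} (hu : u ≤ m) (hv : v ≤ m)
    (h : code m u = code m v) : u = v := by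
  induction n with
  | zero => exact Subsingleton.elim _ _
  | succ n ih =>
    have h1 : code (Fin.tail m) (Fin.tail u) = code (Fin.tail m) (Fin.tail v) :=
      le_antisymm (tail_of_code_le hv h.le) (tail_of_code_le hu h.ge)
    have h2 := ih (tail_le hu) (tail_le hv) h1
    simp only [code] at h
    have h3 : u 0 = v 0 := by rw [h1] at h; omega
    funext i
    refine Fin.cases h3 (fun j => ?_) i
    exact congrFun h2 j

/-- Interpolation between comparable vectors. -/
theorem interp {n : ℕ} {u z : Fin n → ℕ} (h : u ≤ z) (s : ℕ) (h1 : rk u ≤ s) (h2 : s ≤ rk z) :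
    ∃ y, u ≤ y ∧ y ≤ z ∧ rk y = s := by
  induction n generalizing s with
  | zero =>
    refine ⟨u, le_rfl, h, ?_⟩
    simp only [rk, Finset.univ_eq_empty, Finset.sum_empty] at *
    omega
  | succ n ih =>
    rw [rk_succ] at h1 h2
    have h0 : u 0 ≤ z 0 := h 0
    by_cases hs : s ≤ z 0 + rk (Fin.tail u)
    · refine ⟨Fin.cons (s - rk (Fin.tail u)) (Fin.tail u), ?_, ?_, ?_⟩
      · intro i
        refine Fin.cases ?_ (fun j => ?_) i
        · simp only [Fin.cons_zero]; omega
        · simp [Fin.tail]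
      · rw [cons_le]
        exact ⟨by omega, tail_le h⟩
      · rw [rk_cons]; omega
    · push Not at hs
      obtain ⟨y, hy1, hy2, hy3⟩ := ih (tail_le h) (s - z 0) (by omega) (by omega)
      refine ⟨Fin.cons (z 0) y, ?_, ?_, ?_⟩
      · intro i
        refine Fin.cases ?_ (fun j => ?_) i
        · simpa using h0
        · simpa [Fin.tail] using hy1 j
      · rw [cons_le]
        exact ⟨le_rfl, hy2⟩
      · rw [rk_cons]; omega

/-- The key lemma: a vector of smaller rank and smaller code extends, inside the box, to a vector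
of the larger rank whose code is still not larger. -/
theorem key {n : ℕ} {m u v : Fin n → ℕ} (hu : u ≤ m) (hv : v ≤ m)
    (hc : code m u ≤ code m v) (hr : rk u ≤ rk v) :
    ∃ z, u ≤ z ∧ z ≤ m ∧ rk z = rk v ∧ code m z ≤ code m v := by
  induction n with
  | zero =>
    exact ⟨v, fun i => i.elim0, hv, rfl, le_rfl⟩
  | succ n ih =>
    have htc := tail_of_code_le hv hc
    have hu0 : u 0 ≤ m 0 := hu 0
    have hv0 : v 0 ≤ m 0 := hv 0
    have hru := rk_succ u
    have hrv := rk_succ v
    by_cases heq : Fin.tail u = Fin.tail v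
    · refine ⟨v, ?_, hv, rfl, le_rfl⟩
      intro i
      refine Fin.cases ?_ (fun j => ?_) i
      · rw [heq] at hru
        show u 0 ≤ v 0
        omega
      · exact (congrFun heq j).le
    have hlt : code (Fin.tail m) (Fin.tail u) < code (Fin.tail m) (Fin.tail v) :=
      lt_of_le_of_ne htc fun he => heq (code_inj (tail_le hu) (tail_le hv) he)
    by_cases hs : u 0 + (rk v - rk u) ≤ m 0
    · refine ⟨Fin.cons (u 0 + (rk v - rk u)) (Fin.tail u), ?_, ?_, ?_, ?_⟩
      · intro i
        refine Fin.cases ?_ (fun j => ?_) i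
        · simp
        · simp [Fin.tail]
      · rw [cons_le]; exact ⟨hs, tail_le hu⟩
      · rw [rk_cons]; omega
      · apply le_of_lt
        apply code_lt_of_tail
        · rw [cons_le]; exact ⟨hs, tail_le hu⟩
        · simpa using hlt
    · push Not at hs
      obtain ⟨z2, hz1, hz2, hz3, hz4⟩ := ih (tail_le hu) (tail_le hv) htc (by omega)
      obtain ⟨y, hy1, hy2, hy3⟩ := interp hz1 (rk v - m 0) (by omega) (by omega)
      have hym : y ≤ Fin.tail m := hy2.trans hz2
      have hyc : code (Fin.tail m) y ≤ code (Fin.tail m) (Fin.tail v) :=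
        (code_mono _ hy2).trans hz4
      refine ⟨Fin.cons (m 0) y, ?_, ?_, ?_, ?_⟩
      · intro i
        refine Fin.cases ?_ (fun j => ?_) i
        · simpa using hu0
        · simpa [Fin.tail] using hy1 j
      · rw [cons_le]; exact ⟨le_rfl, hym⟩
      · rw [rk_cons]; omega
      · rcases hyc.lt_or_eq with hl | he
        · apply le_of_lt
          apply code_lt_of_tail
          · rw [cons_le]; exact ⟨le_rfl, hym⟩
          · simpa using hl
        · have hyv := code_inj hym (tail_le hv) he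
          rw [code_cons, he]
          simp only [code]
          have : rk y = rk (Fin.tail v) := by rw [hyv]
          have : m 0 = v 0 := by omega
          omega

/-! ### Shadows -/

/-- The lower shadow of a finite set of exponent vectors. -/
def sh {n : ℕ} (F : Finset (Fin n → ℕ)) : Finset (Fin n → ℕ) :=
  F.biUnion fun u => (Finset.univ.filter fun i => 0 < u i).image fun i => u - Pi.single i 1

theorem mem_sh {n : ℕ} {F : Finset (Fin n → ℕ)} {v : Fin n → ℕ} :
    v ∈ sh F ↔ ∃ i, v + Pi.single i 1 ∈ F := by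
  unfold sh
  simp only [Finset.mem_biUnion, Finset.mem_image, Finset.mem_filter, Finset.mem_univ, true_and]
  constructor
  · rintro ⟨u, hu, i, hi, rfl⟩
    refine ⟨i, ?_⟩
    convert hu using 1
    funext j
    by_cases hj : j = i
    · subst hj; simp; omega
    · simp [hj]
  · rintro ⟨i, hi⟩
    refine ⟨_, hi, i, by simp, ?_⟩
    funext j
    simp

theorem sh_mono {n : ℕ} {F G : Finset (Fin n → ℕ)} (h : F ⊆ G) : sh F ⊆ sh G := by
  intro v hv
  rw [mem_sh] at *
  obtain ⟨i, hi⟩ := hv
  exact ⟨i, h hi⟩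

theorem rk_add_single {n : ℕ} (v : Fin n → ℕ) (i : Fin n) :
    rk (v + Pi.single i 1) = rk v + 1 := by
  unfold rk
  simp [Finset.sum_add_distrib]

theorem le_add_single {n : ℕ} (v : Fin n → ℕ) (i : Fin n) : v ≤ v + Pi.single i 1 := by
  intro j
  simp

/-- A comparable pair of consecutive ranks is a one-step pair. -/
theorem exists_single {n : ℕ} {v u : Fin n → ℕ} (h : v ≤ u) (hr : rk u = rk v + 1) :
    ∃ i, v + Pi.single i 1 = u := by
  have h1 : ∃ i, v i < u i := by
    by_contra hc
    push Not at hc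
    have : rk u ≤ rk v := Finset.sum_le_sum fun i _ => hc i
    omega
  obtain ⟨i, hi⟩ := h1
  refine ⟨i, ?_⟩
  have hle : v + Pi.single i 1 ≤ u := by
    intro j
    by_cases hj : j = i
    · subst hj; simp; omega
    · simp [hj, h j]
  funext j
  have h2 : rk (v + Pi.single i 1) = rk u := by rw [rk_add_single, hr]
  unfold rk at h2
  exact (Finset.sum_eq_sum_iff_of_le fun k _ => hle k).1 h2 j (Finset.mem_univ j)

theorem mem_sh_of_le {n : ℕ} {F : Finset (Fin n → ℕ)} {u v : Fin n → ℕ} (hu : u ∈ F)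
    (h : v ≤ u) (hr : rk u = rk v + 1) : v ∈ sh F := by
  obtain ⟨i, hi⟩ := exists_single h hr
  rw [mem_sh]
  exact ⟨i, by rw [hi]; exact hu⟩

/-- `G` is an initial segment of the level of rank `r` of the box `m`. -/
structure IsInit {n : ℕ} (m : Fin n → ℕ) (r : ℕ) (G : Finset (Fin n → ℕ)) : Prop where
  le : ∀ u ∈ G, u ≤ m
  rank : ∀ u ∈ G, rk u = r
  init : ∀ u ∈ G, ∀ v, v ≤ m → rk v = r → code m v < code m u → v ∈ G

theorem IsInit.mem_of_le {n : ℕ} {m : Fin n → ℕ} {r : ℕ} {G : Finset (Fin n → ℕ)}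
    (hG : IsInit m r G) {u v : Fin n → ℕ} (hu : u ∈ G) (hv : v ≤ m) (hr : rk v = r)
    (hc : code m v ≤ code m u) : v ∈ G := by
  rcases hc.lt_or_eq with h | h
  · exact hG.init u hu v hv hr h
  · rw [code_inj hv (hG.le u hu) h]; exact hu

/-- The shadow of an initial segment is an initial segment. -/
theorem IsInit.sh {n : ℕ} {m : Fin n → ℕ} {r : ℕ} {G : Finset (Fin n → ℕ)}
    (hG : IsInit m (r + 1) G) : IsInit m r (sh G) := by
  constructor
  · intro v hv
    rw [mem_sh] at hv
    obtain ⟨i, hi⟩ := hv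
    exact (le_add_single v i).trans (hG.le _ hi)
  · intro v hv
    rw [mem_sh] at hv
    obtain ⟨i, hi⟩ := hv
    have := hG.rank _ hi
    rw [rk_add_single] at this
    omega
  · intro v hv w hw hwr hc
    rw [mem_sh] at hv
    obtain ⟨i, hi⟩ := hv
    have h1 : code m w ≤ code m (v + Pi.single i 1) :=
      hc.le.trans (code_mono m (le_add_single v i))
    have h2 := hG.rank _ hi
    obtain ⟨z, hz1, hz2, hz3, hz4⟩ := key hw (hG.le _ hi) h1 (by omega)
    have hz : z ∈ G := hG.mem_of_le hi hz2 (by omega) hz4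
    exact mem_sh_of_le hz hz1 (by omega)

theorem IsInit.subset_of_card {n : ℕ} {m : Fin n → ℕ} {r : ℕ} {G H : Finset (Fin n → ℕ)}
    (hG : IsInit m r G) (hH : IsInit m r H) (h : G.card ≤ H.card) : G ⊆ H := by
  by_contra hc
  rw [Finset.not_subset] at hc
  obtain ⟨u, hu, huH⟩ := hc
  have h1 : H ⊆ G.erase u := by
    intro v hv
    rw [Finset.mem_erase]
    refine ⟨fun he => huH (he ▸ hv), ?_⟩
    by_contra hvG
    have h2 : code m u < code m v := by
      by_contra h3
      push Not at h3
      exact hvG (hG.mem_of_le hu (hH.le v hv) (hH.rank v hv) h3)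
    exact huH (hH.init v hv u (hG.le u hu) (hG.rank u hu) h2)
  have h2 := Finset.card_le_card h1
  rw [Finset.card_erase_of_mem hu] at h2
  have h3 : 0 < G.card := Finset.card_pos.2 ⟨u, hu⟩
  omega

end Pool.Agent.R407.CL
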