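import Pool.Agent.R407.CL1

/-!
# The Clements-Lindstroem theorem for products of chains, part 2: the two-coordinate shift
-/

set_option autoImplicit false

namespace Pool.Agent.R407.CL

open Finset

/-- The box as a finite set. -/
def box {n : ℕ} (m : Fin n → ℕ) : Finset (Fin n → ℕ) :=
  Fintype.piFinset fun i => Finset.range (m i + 1)

theorem mem_box {n : ℕ} {m u : Fin n → ℕ} : u ∈ box m ↔ u ≤ m := by
  unfold box
  rw [Fintype.mem_piFinset]
  simp only [Finset.mem_range, Nat.lt_succ_iff]
  exact Iff.rfl

/-- Numerical fact 1. -/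
theorem num1 (ρ : ℕ) (B D : Finset ℕ) (hB : ∀ b ∈ B, b ≤ ρ)
    (h1 : ∀ b ∈ B, b < ρ → b ∈ D) (h2 : ∀ b ∈ B, 1 ≤ b → b - 1 ∈ D) :
    min B.card ρ ≤ D.card := by
  by_cases hρ : ρ ∈ B
  · by_cases hx : ∃ x, x < ρ ∧ x ∉ B
    · obtain ⟨x, hx, hxB⟩ := hx
      refine (min_le_left _ _).trans ?_
      refine Finset.card_le_card_of_injOn (fun b => if b < x then b else b - 1) ?_ ?_
      · intro b hb
        have hb' : b ∈ B := hb
        by_cases hbx : b < x
        · simp only [hbx, if_true]
          exact h1 b hb' (by omega)
        · simp only [hbx, if_false]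
          have : b ≠ x := fun h => hxB (h ▸ hb')
          exact h2 b hb' (by omega)
      · intro b hb c hc hbc
        have hbne : b ≠ x := fun h => hxB (h ▸ hb)
        have hcne : c ≠ x := fun h => hxB (h ▸ hc)
        simp only at hbc
        split_ifs at hbc <;> omega
    · push Not at hx
      refine (min_le_right _ _).trans ?_
      have : Finset.range ρ ⊆ D := by
        intro x hx'
        rw [Finset.mem_range] at hx'
        exact h1 x (hx x hx') hx'
      simpa using Finset.card_le_card this
  · refine (min_le_left _ _).trans ?_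
    refine Finset.card_le_card fun b hb => h1 b hb ?_
    have : b ≠ ρ := fun h => hρ (h ▸ hb)
    have := hB b hb
    omega

/-- Numerical fact 2. -/
theorem num2 (ρ : ℕ) (B D : Finset ℕ) (hne : B.Nonempty) (hB : ∀ b ∈ B, 1 ≤ b ∧ b < ρ)
    (h1 : ∀ b ∈ B, b < ρ → b ∈ D) (h2 : ∀ b ∈ B, 1 ≤ b → b - 1 ∈ D) :
    B.card + 1 ≤ D.card := by
  have hmin := Finset.min'_mem B hne
  set b0 := B.min' hne with hb0
  have hnot : b0 - 1 ∉ B := by
    intro hc
    have := Finset.min'_le B _ hc
    have := (hB _ hmin).1
    omega
  have hsub : insert (b0 - 1) B ⊆ D := by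
    intro x hx
    rw [Finset.mem_insert] at hx
    rcases hx with rfl | hx
    · exact h2 _ hmin (hB _ hmin).1
    · exact h1 x hx (hB x hx).2
  have := Finset.card_le_card hsub
  rwa [Finset.card_insert_of_notMem hnot] at this

section Shift

variable {n : ℕ} (m : Fin n → ℕ) (i j : Fin n)

/-- The key of the line of `u` in the directions `i, j`. -/
def lk (u : Fin n → ℕ) : Fin n → ℕ :=
  Function.update (Function.update u i 0) j (u i + u j)

variable {i j}

theorem lk_eq (hij : i ≠ j) {u v : Fin n → ℕ} :
    lk i j u = lk i j v ↔ (∀ l, l ≠ i → l ≠ j → u l = v l) ∧ u i + u j = v i + v j := by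
  unfold lk
  constructor
  · intro h
    refine ⟨fun l hl1 hl2 => ?_, ?_⟩
    · have := congrFun h l
      simpa [Function.update, hl1, hl2] using this
    · have := congrFun h j
      simpa [Function.update] using this
  · rintro ⟨h1, h2⟩
    funext l
    by_cases hl2 : l = j
    · subst hl2; simpa [Function.update] using h2
    · by_cases hl1 : l = i
      · subst hl1; simp [Function.update, hl2]
      · simpa [Function.update, hl1, hl2] using h1 l hl1 hl2

theorem lk_inj (hij : i ≠ j) {u v : Fin n → ℕ} (h : lk i j u = lk i j v) (h2 : u i = v i) :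
    u = v := by
  rw [lk_eq hij] at h
  funext l
  by_cases hl2 : l = j
  · subst hl2; omega
  · by_cases hl1 : l = i
    · subst hl1; exact h2
    · exact h.1 l hl1 hl2

variable (i j)

/-- The part of `F` on the line with key `k`. -/
def ln (F : Finset (Fin n → ℕ)) (k : Fin n → ℕ) : Finset (Fin n → ℕ) :=
  F.filter fun v => lk i j v = k

variable {i j}

theorem mem_ln {F : Finset (Fin n → ℕ)} {k v : Fin n → ℕ} :
    v ∈ ln i j F k ↔ v ∈ F ∧ lk i j v = k := by
  simp [ln]

variable (i j)

/-- The shift of `F`: on every line, the same number of elements with the smallest `i`-th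
coordinate. -/
def shift (F : Finset (Fin n → ℕ)) : Finset (Fin n → ℕ) :=
  (box m).filter fun u => u i - (u i + u j - m j) < (ln i j F (lk i j u)).card

variable {i j} {m}

theorem mem_shift {F : Finset (Fin n → ℕ)} {u : Fin n → ℕ} :
    u ∈ shift m i j F ↔ u ≤ m ∧ u i - (u i + u j - m j) < (ln i j F (lk i j u)).card := by
  simp [shift, mem_box]

theorem card_ln_image (hij : i ≠ j) (F : Finset (Fin n → ℕ)) (k : Fin n → ℕ) :
    ((ln i j F k).image fun v => v i).card = (ln i j F k).card := by
  refine Finset.card_image_of_injOn fun u hu v hv huv => ?_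
  rw [Finset.mem_coe, mem_ln] at hu hv
  exact lk_inj hij (hu.2.trans hv.2.symm) huv

/-- The line of the shift has the same size. -/
theorem card_ln_shift (hij : i ≠ j) {F : Finset (Fin n → ℕ)} (hF : ∀ u ∈ F, u ≤ m)
    (k : Fin n → ℕ) : (ln i j (shift m i j F) k).card = (ln i j F k).card := by
  by_cases hne : (ln i j F k).Nonempty
  · obtain ⟨w, hw⟩ := hne
    rw [mem_ln] at hw
    obtain ⟨hwF, rfl⟩ := hw
    have hwm := hF w hwF
    set ρ := w i + w j with hρ
    set c := (ln i j F (lk i j w)).card with hc
    have hwi : w i ≤ m i := hwm i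
    have hwj : w j ≤ m j := hwm j
    -- bound on c
    have hcb : c ≤ min (m i) ρ + 1 - (ρ - m j) := by
      rw [hc, ← card_ln_image hij]
      have : ((ln i j F (lk i j w)).image fun v => v i) ⊆ Finset.Icc (ρ - m j) (min (m i) ρ) := by
        intro b hb
        rw [Finset.mem_image] at hb
        obtain ⟨v, hv, rfl⟩ := hb
        rw [mem_ln, lk_eq hij] at hv
        have h1 : v i ≤ m i := hF v hv.1 i
        have h2 : v j ≤ m j := hF v hv.1 j
        have h3 := hv.2.2
        rw [Finset.mem_Icc]
        constructor
        · omega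
        · rw [le_min_iff]; omega
      have h := Finset.card_le_card this
      rwa [Nat.card_Icc] at h
    rw [← card_ln_image hij]
    have himg : ((ln i j (shift m i j F) (lk i j w)).image fun v => v i)
        = Finset.Ico (ρ - m j) (ρ - m j + c) := by
      ext b
      rw [Finset.mem_image, Finset.mem_Ico]
      constructor
      · rintro ⟨v, hv, rfl⟩
        rw [mem_ln, mem_shift] at hv
        obtain ⟨⟨hvm, hv1⟩, hv2⟩ := hv
        rw [hv2] at hv1
        have h3 := ((lk_eq hij).1 hv2).2
        have h2 : v j ≤ m j := hvm j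
        rw [← hc] at hv1
        rw [h3, ← hρ] at hv1
        omega
      · rintro ⟨hb1, hb2⟩
        have hb3 : b ≤ min (m i) ρ := by omega
        rw [le_min_iff] at hb3
        let v : Fin n → ℕ := Function.update (Function.update w i b) j (ρ - b)
        have hvi : v i = b := by simp [v, Function.update, hij]
        have hvj : v j = ρ - b := by simp [v]
        have hvl : ∀ l, l ≠ i → l ≠ j → v l = w l := by
          intro l h1 h2
          simp [v, Function.update, h1, h2]
        have hkey : lk i j v = lk i j w := by
          rw [lk_eq hij]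
          exact ⟨hvl, by rw [hvi, hvj]; omega⟩
        have hb4 : ρ - b ≤ m j := by omega
        refine ⟨v, ?_, hvi⟩
        rw [mem_ln, mem_shift, hkey, hvi, hvj, ← hc]
        refine ⟨⟨?_, by omega⟩, rfl⟩
        intro l
        by_cases hl1 : l = i
        · subst hl1; rw [hvi]; exact hb3.1
        · by_cases hl2 : l = j
          · subst hl2; rw [hvj]; exact hb4
          · rw [hvl l hl1 hl2]; exact hwm l
    rw [himg, Nat.card_Ico]
    omega
  · rw [Finset.not_nonempty_iff_eq_empty] at hne
    rw [hne, Finset.card_empty, Finset.card_eq_zero, Finset.eq_empty_iff_forall_notMem]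
    intro v hv
    rw [mem_ln, mem_shift] at hv
    rw [hv.2, hne] at hv
    simp at hv

theorem card_eq_sum_ln (i j : Fin n) (F : Finset (Fin n → ℕ)) (K : Finset (Fin n → ℕ))
    (hK : ∀ u ∈ F, lk i j u ∈ K) : F.card = ∑ k ∈ K, (ln i j F k).card := by
  rw [Finset.card_eq_sum_card_fiberwise (f := lk i j) (t := K) hK]
  rfl

theorem card_shift (hij : i ≠ j) {F : Finset (Fin n → ℕ)} (hF : ∀ u ∈ F, u ≤ m) :
    (shift m i j F).card = F.card := by
  classical
  rw [card_eq_sum_ln i j (shift m i j F) ((shift m i j F ∪ F).image (lk i j))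
      (fun u hu => Finset.mem_image_of_mem _ (Finset.mem_union_left _ hu)),
    card_eq_sum_ln i j F ((shift m i j F ∪ F).image (lk i j))
      (fun u hu => Finset.mem_image_of_mem _ (Finset.mem_union_right _ hu))]
  exact Finset.sum_congr rfl fun k _ => card_ln_shift hij hF k

theorem rk_of_lk (hij : i ≠ j) {u v : Fin n → ℕ} (h : lk i j u = lk i j v) : rk u = rk v := by
  rw [lk_eq hij] at h
  unfold rk
  rw [← Finset.add_sum_erase _ _ (Finset.mem_univ i),
    ← Finset.add_sum_erase (a := i) _ v (Finset.mem_univ i),
    ← Finset.add_sum_erase _ _ (Finset.mem_erase.2 ⟨hij.symm, Finset.mem_univ j⟩),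
    ← Finset.add_sum_erase (a := j) _ v (Finset.mem_erase.2 ⟨hij.symm, Finset.mem_univ j⟩)]
  have : ∑ x ∈ (Finset.univ.erase i).erase j, u x = ∑ x ∈ (Finset.univ.erase i).erase j, v x := by
    refine Finset.sum_congr rfl fun l hl => ?_
    rw [Finset.mem_erase, Finset.mem_erase] at hl
    exact h.1 l hl.2.1 hl.1
  omega

theorem rk_shift (hij : i ≠ j) {F : Finset (Fin n → ℕ)} {r : ℕ} (hF : ∀ u ∈ F, rk u = r) :
    ∀ u ∈ shift m i j F, rk u = r := by
  intro u hu
  rw [mem_shift] at hu
  have : (ln i j F (lk i j u)).Nonempty := by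
    rw [← Finset.card_pos]; omega
  obtain ⟨v, hv⟩ := this
  rw [mem_ln] at hv
  rw [← rk_of_lk hij hv.2]
  exact hF v hv.1

/-- The shadow of the shift is contained in the shift of the shadow. -/
theorem sh_shift (hij : i ≠ j) (hm : m i ≤ m j) {F : Finset (Fin n → ℕ)}
    (hF : ∀ u ∈ F, u ≤ m) : sh (shift m i j F) ⊆ shift m i j (sh F) := by
  intro v hv
  rw [mem_sh] at hv
  obtain ⟨l, hl⟩ := hv
  set u := v + Pi.single l 1 with hu
  rw [mem_shift] at hl
  obtain ⟨hum, huc⟩ := hl
  have hvu : v ≤ u := le_add_single v l
  rw [mem_shift]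
  refine ⟨hvu.trans hum, ?_⟩
  have hui : u i ≤ m i := hum i
  have huj : u j ≤ m j := hum j
  by_cases hlij : l ≠ i ∧ l ≠ j
  · -- a third direction
    obtain ⟨hli, hlj⟩ := hlij
    have h1 : v i = u i := by simp [hu, hli.symm]
    have h2 : v j = u j := by simp [hu, hlj.symm]
    rw [h1, h2]
    refine huc.trans_le ?_
    refine Finset.card_le_card_of_injOn (fun w => w - Pi.single l 1) ?_ ?_
    · intro w hw
      rw [Finset.mem_coe, mem_ln] at hw
      rw [Finset.mem_coe, mem_ln]
      have hwk := (lk_eq hij).1 hw.2
      have hwl : w l = u l := hwk.1 l hli hlj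
      have hul : u l = v l + 1 := by simp [hu]
      have hback : w - Pi.single l 1 + Pi.single l 1 = w := by
        funext x
        by_cases hx : x = l
        · subst hx; simp; omega
        · simp [hx]
      refine ⟨?_, ?_⟩
      · rw [mem_sh]
        exact ⟨l, by rw [hback]; exact hw.1⟩
      · rw [lk_eq hij]
        refine ⟨fun x hx1 hx2 => ?_, ?_⟩
        · have := hwk.1 x hx1 hx2
          by_cases hx : x = l
          · subst hx; simp; omega
          · simp only [Pi.sub_apply, Pi.single_apply, hx, if_false, Nat.sub_zero]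
            rw [this, hu]
            simp [hx]
        · have := hwk.2
          simp only [Pi.sub_apply, Pi.single_apply, hli.symm, hlj.symm, if_false, Nat.sub_zero]
          rw [this, h1, h2]
    · intro a ha b hb hab
      rw [Finset.mem_coe, mem_ln] at ha hb
      have h3 := ((lk_eq hij).1 ha.2).1 l hli hlj
      have h4 := ((lk_eq hij).1 hb.2).1 l hli hlj
      funext x
      have h5 := congrFun hab x
      by_cases hx : x = l
      · subst hx; omega
      · simpa [hx] using h5
  · -- a direction of the line
    set ρ := u i + u j with hρ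
    set B := (ln i j F (lk i j u)).image fun w => w i with hB
    set D := (ln i j (sh F) (lk i j v)).image fun w => w i with hD
    have hBc : B.card = (ln i j F (lk i j u)).card := card_ln_image hij _ _
    have hDc : D.card = (ln i j (sh F) (lk i j v)).card := card_ln_image hij _ _
    rw [← hBc] at huc
    rw [← hDc]
    have hsum : v i + v j + 1 = u i + u j := by
      by_cases h1 : l = i
      · subst h1
        simp [hu, hij.symm]; omega
      · have h2 : l = j := by
          by_contra h3
          exact hlij ⟨h1, h3⟩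
        subst h2
        simp [hu, hij]; omega
    have hoth : ∀ x, x ≠ i → x ≠ j → v x = u x := by
      intro x hx1 hx2
      have : x ≠ l := by
        intro h
        exact hlij ⟨h ▸ hx1, h ▸ hx2⟩
      simp [hu, this]
    -- elements of D
    have hd1 : ∀ b ∈ B, b < ρ → b ∈ D := by
      intro b hb hbρ
      rw [hB, Finset.mem_image] at hb
      obtain ⟨w, hw, rfl⟩ := hb
      rw [mem_ln] at hw
      have hwk := (lk_eq hij).1 hw.2
      have hwj : 1 ≤ w j := by have := hwk.2; omega
      rw [hD, Finset.mem_image]
      refine ⟨w - Pi.single j 1, ?_, by simp [hij]⟩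
      rw [mem_ln]
      have hback : w - Pi.single j 1 + Pi.single j 1 = w := by
        funext x
        by_cases hx : x = j
        · subst hx; simp; omega
        · simp [hx]
      refine ⟨?_, ?_⟩
      · rw [mem_sh]
        exact ⟨j, by rw [hback]; exact hw.1⟩
      · rw [lk_eq hij]
        refine ⟨fun x hx1 hx2 => ?_, ?_⟩
        · rw [hoth x hx1 hx2, ← hwk.1 x hx1 hx2]
          simp [hx2]
        · have := hwk.2
          simp only [Pi.sub_apply, Pi.single_apply, hij, if_false, if_true, Nat.sub_zero]
          omega
    have hd2 : ∀ b ∈ B, 1 ≤ b → b - 1 ∈ D := by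
      intro b hb hb1
      rw [hB, Finset.mem_image] at hb
      obtain ⟨w, hw, rfl⟩ := hb
      rw [mem_ln] at hw
      have hwk := (lk_eq hij).1 hw.2
      rw [hD, Finset.mem_image]
      refine ⟨w - Pi.single i 1, ?_, by simp⟩
      rw [mem_ln]
      have hback : w - Pi.single i 1 + Pi.single i 1 = w := by
        funext x
        by_cases hx : x = i
        · subst hx; simp; omega
        · simp [hx]
      refine ⟨?_, ?_⟩
      · rw [mem_sh]
        exact ⟨i, by rw [hback]; exact hw.1⟩
      · rw [lk_eq hij]
        refine ⟨fun x hx1 hx2 => ?_, ?_⟩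
        · rw [hoth x hx1 hx2, ← hwk.1 x hx1 hx2]
          simp [hx1]
        · have := hwk.2
          simp only [Pi.sub_apply, Pi.single_apply, hij.symm, if_false, if_true, Nat.sub_zero]
          omega
    have hBb : ∀ b ∈ B, b ≤ ρ ∧ b ≤ m i ∧ ρ - m j ≤ b := by
      intro b hb
      rw [hB, Finset.mem_image] at hb
      obtain ⟨w, hw, rfl⟩ := hb
      rw [mem_ln] at hw
      have hwk := (lk_eq hij).1 hw.2
      have h1 : w i ≤ m i := hF w hw.1 i
      have h2 : w j ≤ m j := hF w hw.1 j
      have h3 := hwk.2
      omega
    by_cases hρm : ρ ≤ m j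
    · have hN := num1 ρ B D (fun b hb => (hBb b hb).1) hd1 hd2
      have h1 : v i < min B.card ρ := by
        rw [lt_min_iff]
        by_cases hli : l = i
        · subst hli
          have : u l = v l + 1 := by simp [hu]
          omega
        · have hlj : l = j := by
            by_contra h3
            exact hlij ⟨hli, h3⟩
          subst hlj
          have h4 : u l = v l + 1 := by simp [hu]
          have h5 : v i = u i := by simp [hu, hij]
          omega
      omega
    · push Not at hρm
      have hBne : B.Nonempty := by rw [← Finset.card_pos]; omega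
      have hN := num2 ρ B D hBne
        (fun b hb => by have := hBb b hb; omega) hd1 hd2
      have hvi : v i ≤ u i := hvu i
      omega

end Shift

end Pool.Agent.R407.CL
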