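import Pool.Agent.R407.CL2

/-!
# The Clements-Lindstroem theorem for products of chains, part 3: the theorem
-/

set_option autoImplicit false

namespace Pool.Agent.R407.CL

open Finset

/-! ### The potential of the shift -/

section Potential

variable {n : ℕ} {m : Fin n → ℕ} {i j : Fin n}

theorem sum_lk (i j : Fin n) (F K : Finset (Fin n → ℕ)) (hK : ∀ u ∈ F, lk i j u ∈ K)
    (g : (Fin n → ℕ) → ℤ) :
    ∑ u ∈ F, g (lk i j u) = ∑ k ∈ K, ((ln i j F k).card : ℤ) * g k := by
  rw [← Finset.sum_fiberwise_of_maps_to (g := lk i j) (t := K) hK]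
  refine Finset.sum_congr rfl fun k _ => ?_
  have : ∀ u ∈ F.filter (fun u => lk i j u = k), g (lk i j u) = g k := by
    intro u hu
    rw [(Finset.mem_filter.1 hu).2]
  rw [Finset.sum_congr rfl this, Finset.sum_const, nsmul_eq_mul]
  rfl

theorem shift_potential (hij : i ≠ j) {F : Finset (Fin n → ℕ)} (hF : ∀ u ∈ F, u ≤ m)
    (hne : shift m i j F ≠ F) :
    ∑ u ∈ F, (u j : ℤ) < ∑ u ∈ shift m i j F, (u j : ℤ) := by
  classical
  set S := shift m i j F with hS
  set K := (S ∪ F).image (lk i j) with hK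
  let g : (Fin n → ℕ) → ℤ := fun k => (k j : ℤ) - ((k j - m j : ℕ) + ((ln i j F k).card : ℤ))
  have hgS : ∑ u ∈ S, g (lk i j u) = ∑ u ∈ F, g (lk i j u) := by
    rw [sum_lk i j S K (fun u hu => Finset.mem_image_of_mem _ (Finset.mem_union_left _ hu)) g,
      sum_lk i j F K (fun u hu => Finset.mem_image_of_mem _ (Finset.mem_union_right _ hu)) g]
    refine Finset.sum_congr rfl fun k _ => ?_
    rw [hS, card_ln_shift hij hF k]
  have hkey : ∀ u : Fin n → ℕ, lk i j u j = u i + u j := by
    intro u; simp [lk]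
  have h1 : ∀ u ∈ S, (1 : ℤ) ≤ (u j : ℤ) - g (lk i j u) := by
    intro u hu
    rw [hS, mem_shift] at hu
    have h2 := hu.2
    simp only [g, hkey]
    omega
  have h2 : ∀ u ∈ F \ S, (u j : ℤ) - g (lk i j u) ≤ 0 := by
    intro u hu
    rw [Finset.mem_sdiff] at hu
    have h3 : ¬ (u i - (u i + u j - m j) < (ln i j F (lk i j u)).card) := by
      intro h
      exact hu.2 (by rw [hS, mem_shift]; exact ⟨hF u hu.1, h⟩)
    have h4 : u j ≤ m j := hF u hu.1 j
    simp only [g, hkey]
    omega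
  have h3 : ∑ u ∈ S, ((u j : ℤ) - g (lk i j u)) - ∑ u ∈ F, ((u j : ℤ) - g (lk i j u))
      = ∑ u ∈ S \ F, ((u j : ℤ) - g (lk i j u)) - ∑ u ∈ F \ S, ((u j : ℤ) - g (lk i j u)) := by
    rw [← Finset.sum_sdiff_sub_sum_sdiff]
  have h4 : (S \ F).Nonempty := by
    rw [Finset.nonempty_iff_ne_empty]
    intro he
    rw [Finset.sdiff_eq_empty_iff_subset] at he
    exact hne (Finset.eq_of_subset_of_card_le he (by rw [hS, card_shift hij hF]))
  have h5 : (1 : ℤ) ≤ ∑ u ∈ S \ F, ((u j : ℤ) - g (lk i j u)) := by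
    obtain ⟨w, hw⟩ := h4
    have hpos : ∀ u ∈ S \ F, (0 : ℤ) ≤ (u j : ℤ) - g (lk i j u) := by
      intro u hu
      have := h1 u (Finset.mem_sdiff.1 hu).1
      omega
    exact (h1 w (Finset.mem_sdiff.1 hw).1).trans (Finset.single_le_sum hpos hw)
  have h6 : ∑ u ∈ F \ S, ((u j : ℤ) - g (lk i j u)) ≤ 0 := Finset.sum_nonpos h2
  have h7 : ∑ u ∈ S, ((u j : ℤ) - g (lk i j u))
      = ∑ u ∈ S, (u j : ℤ) - ∑ u ∈ S, g (lk i j u) := by rw [← Finset.sum_sub_distrib]
  have h8 : ∑ u ∈ F, ((u j : ℤ) - g (lk i j u))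
      = ∑ u ∈ F, (u j : ℤ) - ∑ u ∈ F, g (lk i j u) := by rw [← Finset.sum_sub_distrib]
  linarith

end Potential

/-! ### Stabilisation -/

theorem exists_stable {n : ℕ} {m : Fin (n + 1) → ℕ} (hm : ∀ i, m i ≤ m 0) {r : ℕ}
    {F : Finset (Fin (n + 1) → ℕ)} (hF : ∀ u ∈ F, u ≤ m) (hr : ∀ u ∈ F, rk u = r) :
    ∃ F' : Finset (Fin (n + 1) → ℕ), (∀ u ∈ F', u ≤ m) ∧ (∀ u ∈ F', rk u = r) ∧
      F'.card = F.card ∧ (sh F').card ≤ (sh F).card ∧ ∀ i, i ≠ 0 → shift m i 0 F' = F' := by
  classical
  let C : Finset (Finset (Fin (n + 1) → ℕ)) := (box m).powerset.filter fun G =>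
    (∀ u ∈ G, rk u = r) ∧ G.card = F.card ∧ (sh G).card ≤ (sh F).card
  have hFC : F ∈ C := by
    rw [Finset.mem_filter, Finset.mem_powerset]
    exact ⟨fun u hu => mem_box.2 (hF u hu), hr, rfl, le_rfl⟩
  obtain ⟨F', hF'C, hmax⟩ := Finset.exists_max_image C (fun G => ∑ u ∈ G, (u 0 : ℤ)) ⟨F, hFC⟩
  rw [Finset.mem_filter, Finset.mem_powerset] at hF'C
  obtain ⟨h1, h2, h3, h4⟩ := hF'C
  have h1' : ∀ u ∈ F', u ≤ m := fun u hu => mem_box.1 (h1 hu)
  refine ⟨F', h1', h2, h3, h4, ?_⟩
  intro i hi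
  by_contra hne
  have hlt := shift_potential hi h1' hne
  have hSC : shift m i 0 F' ∈ C := by
    rw [Finset.mem_filter, Finset.mem_powerset]
    refine ⟨fun u hu => mem_box.2 (mem_shift.1 hu).1, rk_shift hi h2, ?_, ?_⟩
    · rw [card_shift hi h1', h3]
    · have h5 := Finset.card_le_card (sh_shift hi (hm i) h1')
      have h6 : ∀ u ∈ sh F', u ≤ m := by
        intro v hv
        rw [mem_sh] at hv
        obtain ⟨l, hl⟩ := hv
        exact (le_add_single v l).trans (h1' _ hl)
      rw [card_shift hi h6] at h5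
      exact h5.trans h4
  exact absurd (hmax _ hSC) (by push Not; exact hlt)

/-! ### Sections -/

/-- The section of `F` with first coordinate `a`. -/
def sec {n : ℕ} (a : ℕ) (F : Finset (Fin (n + 1) → ℕ)) : Finset (Fin n → ℕ) :=
  (F.filter fun u => u 0 = a).image Fin.tail

theorem mem_sec {n : ℕ} {a : ℕ} {F : Finset (Fin (n + 1) → ℕ)} {u : Fin n → ℕ} :
    u ∈ sec a F ↔ (Fin.cons a u : Fin (n + 1) → ℕ) ∈ F := by
  unfold sec
  rw [Finset.mem_image]
  constructor
  · rintro ⟨v, hv, rfl⟩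
    rw [Finset.mem_filter] at hv
    obtain ⟨hv1, rfl⟩ := hv
    rwa [Fin.cons_self_tail]
  · intro h
    refine ⟨_, Finset.mem_filter.2 ⟨h, by simp⟩, by simp⟩

theorem card_sec {n : ℕ} (a : ℕ) (F : Finset (Fin (n + 1) → ℕ)) :
    (sec a F).card = (F.filter fun u => u 0 = a).card := by
  unfold sec
  refine Finset.card_image_of_injOn fun u hu v hv huv => ?_
  rw [Finset.mem_coe, Finset.mem_filter] at hu hv
  rw [← Fin.cons_self_tail u, ← Fin.cons_self_tail v, huv, hu.2, hv.2]

theorem card_eq_sum_sec {n : ℕ} {M : ℕ} {F : Finset (Fin (n + 1) → ℕ)}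
    (hF : ∀ u ∈ F, u 0 ≤ M) : F.card = ∑ a ∈ Finset.range (M + 1), (sec a F).card := by
  rw [Finset.card_eq_sum_card_fiberwise (f := fun u => u 0) (t := Finset.range (M + 1))
    (fun u hu => Finset.mem_coe.2 (Finset.mem_range.2 (Nat.lt_succ_of_le (hF u hu))))]
  exact Finset.sum_congr rfl fun a _ => (card_sec a F).symm

theorem sec_sh {n : ℕ} (a : ℕ) (F : Finset (Fin (n + 1) → ℕ)) :
    sec a (sh F) = sec (a + 1) F ∪ sh (sec a F) := by
  ext v
  rw [mem_sec, mem_sh, Finset.mem_union, mem_sec, mem_sh]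
  have h0 : (Fin.cons a v : Fin (n + 1) → ℕ) + Pi.single 0 1 = Fin.cons (a + 1) v := by
    funext x
    refine Fin.cases ?_ (fun y => ?_) x
    · simp
    · simp
  have hs : ∀ i : Fin n, (Fin.cons a v : Fin (n + 1) → ℕ) + Pi.single i.succ 1
      = Fin.cons a (v + Pi.single i 1) := by
    intro i
    funext x
    refine Fin.cases ?_ (fun y => ?_) x
    · simp
    · by_cases hy : y = i
      · subst hy; simp
      · simp [hy]
  constructor
  · rintro ⟨i, hi⟩
    revert hi
    refine Fin.cases ?_ (fun y => ?_) i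
    · intro hi; left; rwa [h0] at hi
    · intro hi; right; rw [hs] at hi; exact ⟨y, mem_sec.2 hi⟩
  · rintro (h | ⟨i, hi⟩)
    · exact ⟨0, by rwa [h0]⟩
    · exact ⟨i.succ, by rw [hs]; exact mem_sec.1 hi⟩

/-- Stability of a family with respect to the first coordinate. -/
def Stab {n : ℕ} (M : ℕ) (F : Finset (Fin (n + 1) → ℕ)) : Prop :=
  ∀ a, a < M → sh (sec a F) ⊆ sec (a + 1) F

theorem card_sh_of_stab {n : ℕ} {M : ℕ} {F : Finset (Fin (n + 1) → ℕ)}
    (hF : ∀ u ∈ F, u 0 ≤ M) (hS : Stab M F) :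
    (sh F).card + (sec 0 F).card = F.card + (sh (sec M F)).card := by
  have h1 : ∀ u ∈ sh F, u 0 ≤ M := by
    intro v hv
    rw [mem_sh] at hv
    obtain ⟨l, hl⟩ := hv
    have := hF _ hl
    simp only [Pi.add_apply] at this
    omega
  rw [card_eq_sum_sec h1, card_eq_sum_sec hF, Finset.sum_range_succ,
    Finset.sum_range_succ' (fun a => (sec a F).card)]
  have h2 : sec (M + 1) F = ∅ := by
    rw [Finset.eq_empty_iff_forall_notMem]
    intro u hu
    rw [mem_sec] at hu
    have := hF _ hu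
    simp at this
  have h3 : ∀ a ∈ Finset.range M, (sec a (sh F)).card = (sec (a + 1) F).card := by
    intro a ha
    rw [sec_sh, Finset.union_eq_left.2 (hS a (Finset.mem_range.1 ha))]
  rw [Finset.sum_congr rfl h3, sec_sh M, h2, Finset.empty_union]
  omega

theorem stab_of_shift {n : ℕ} {m : Fin (n + 1) → ℕ} {F : Finset (Fin (n + 1) → ℕ)}
    (hF : ∀ u ∈ F, u ≤ m) (hS : ∀ i, i ≠ 0 → shift m i 0 F = F) : Stab (m 0) F := by
  intro a ha v hv
  rw [mem_sh] at hv
  obtain ⟨i, hi⟩ := hv
  rw [mem_sec] at hi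
  rw [mem_sec, ← hS i.succ (Fin.succ_ne_zero i), mem_shift]
  have hle := hF _ hi
  rw [cons_le] at hle
  have h1 := hi
  rw [← hS i.succ (Fin.succ_ne_zero i), mem_shift] at h1
  have hk : lk i.succ 0 (Fin.cons (a + 1) v : Fin (n + 1) → ℕ)
      = lk i.succ 0 (Fin.cons a (v + Pi.single i 1) : Fin (n + 1) → ℕ) := by
    rw [lk_eq (Fin.succ_ne_zero i)]
    refine ⟨?_, ?_⟩
    · intro l hl1 hl2
      revert hl1 hl2
      refine Fin.cases ?_ (fun y => ?_) l
      · intro _ h; exact absurd rfl h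
      · intro hy _
        have : y ≠ i := fun h => hy (by rw [h])
        simp [this]
    · simp; omega
  refine ⟨?_, ?_⟩
  · rw [cons_le]
    exact ⟨ha, (le_add_single v i).trans hle.2⟩
  · rw [hk]
    have h2 := h1.2
    simp only [Fin.cons_succ, Fin.cons_zero, Pi.add_apply, Pi.single_eq_same] at h2 ⊢
    omega

theorem IsInit.stab {n : ℕ} {m : Fin (n + 1) → ℕ} {r : ℕ} {G : Finset (Fin (n + 1) → ℕ)}
    (hG : IsInit m r G) : Stab (m 0) G := by
  intro a ha v hv
  rw [mem_sh] at hv
  obtain ⟨i, hi⟩ := hv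
  rw [mem_sec] at hi ⊢
  have hle := hG.le _ hi
  rw [cons_le] at hle
  have hrk := hG.rank _ hi
  rw [rk_cons, rk_add_single] at hrk
  refine hG.mem_of_le hi ?_ ?_ ?_
  · rw [cons_le]
    exact ⟨ha, (le_add_single v i).trans hle.2⟩
  · rw [rk_cons]; omega
  · rw [code_cons, code_cons]
    have h1 : code (Fin.tail m) v < code (Fin.tail m) (v + Pi.single i 1) := by
      refine lt_of_le_of_ne (code_mono _ (le_add_single v i)) fun h => ?_
      have := code_inj ((le_add_single v i).trans hle.2) hle.2 h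
      have h2 := congrFun this i
      simp at h2
    have h2 := Nat.mul_le_mul_left (m 0 + 1) h1
    nlinarith

theorem IsInit.sec {n : ℕ} {m : Fin (n + 1) → ℕ} {r : ℕ} {G : Finset (Fin (n + 1) → ℕ)}
    (hG : IsInit m r G) (a : ℕ) : IsInit (Fin.tail m) (r - a) (sec a G) := by
  constructor
  · intro u hu
    rw [mem_sec] at hu
    exact (cons_le.1 (hG.le _ hu)).2
  · intro u hu
    rw [mem_sec] at hu
    have := hG.rank _ hu
    rw [rk_cons] at this
    omega
  · intro u hu v hv hvr hc
    rw [mem_sec] at hu ⊢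
    have h1 := hG.rank _ hu
    rw [rk_cons] at h1
    refine hG.init _ hu _ ?_ ?_ ?_
    · rw [cons_le]
      exact ⟨(cons_le.1 (hG.le _ hu)).1, hv⟩
    · rw [rk_cons]; omega
    · rw [code_cons, code_cons]
      have := Nat.mul_lt_mul_of_pos_left hc (Nat.succ_pos (m 0))
      simpa using this

theorem sh_eq_empty_of_rank_zero {n : ℕ} {F : Finset (Fin n → ℕ)} (h : ∀ u ∈ F, rk u = 0) :
    sh F = ∅ := by
  rw [Finset.eq_empty_iff_forall_notMem]
  intro v hv
  rw [mem_sh] at hv
  obtain ⟨i, hi⟩ := hv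
  have := h _ hi
  rw [rk_add_single] at this
  omega

theorem IsInit.sh' {n : ℕ} {m : Fin n → ℕ} {r : ℕ} {G : Finset (Fin n → ℕ)}
    (hG : IsInit m r G) : IsInit m (r - 1) (CL.sh G) := by
  rcases r with _ | r
  · rw [sh_eq_empty_of_rank_zero hG.rank]
    exact ⟨by simp, by simp, by simp⟩
  · exact hG.sh

theorem IsInit.iter {n : ℕ} {m : Fin n → ℕ} {r : ℕ} {G : Finset (Fin n → ℕ)}
    (hG : IsInit m r G) (k : ℕ) : IsInit m (r - k) (CL.sh^[k] G) := by
  induction k with
  | zero => simpa using hG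
  | succ k ih =>
    rw [Function.iterate_succ_apply']
    have := ih.sh'
    rwa [Nat.sub_sub] at this

theorem mem_iter_sh {n : ℕ} (k : ℕ) : ∀ {F : Finset (Fin n → ℕ)} {w z : Fin n → ℕ}, z ∈ F →
    w ≤ z → rk z = rk w + k → w ∈ sh^[k] F := by
  induction k with
  | zero =>
    intro F w z hz hwz hr
    have : w = z := by
      funext i
      have h2 : rk w = rk z := by omega
      unfold rk at h2
      exact (Finset.sum_eq_sum_iff_of_le fun k _ => hwz k).1 h2 i (Finset.mem_univ i)
    rw [this]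
    exact hz
  | succ k ih =>
    intro F w z hz hwz hr
    obtain ⟨y, hy1, hy2, hy3⟩ := interp hwz (rk w + k) (by omega) (by omega)
    rw [Function.iterate_succ_apply]
    exact ih (mem_sh_of_le hz hy2 (by omega)) hy1 (by omega)

/-- The statement of the theorem in dimension `n`. -/
def CLS (n : ℕ) : Prop :=
  ∀ (m : Fin n → ℕ), Antitone m → ∀ (r : ℕ) (F G : Finset (Fin n → ℕ)),
    (∀ u ∈ F, u ≤ m) → (∀ u ∈ F, rk u = r) → IsInit m r G → G.card ≤ F.card →
      (sh G).card ≤ (sh F).card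

theorem exchange {n : ℕ} (ih : CLS n) {m : Fin (n + 1) → ℕ} (hm : Antitone (Fin.tail m))
    {r : ℕ} {F G : Finset (Fin (n + 1) → ℕ)} (hF : ∀ u ∈ F, u ≤ m) (hFr : ∀ u ∈ F, rk u = r)
    (hS : Stab (m 0) F) (hG : IsInit m r G) {a b : ℕ} (hab : a ≤ b) (hb : b ≤ m 0)
    (h : (sec a G).card < (sec a F).card) : (sec b G).card ≤ (sec b F).card := by
  classical
  have hFs : ∀ c, ∀ u ∈ sec c F, u ≤ Fin.tail m ∧ c + rk u = r := by
    intro c u hu
    rw [mem_sec] at hu
    have h1 := hFr _ hu
    rw [rk_cons] at h1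
    exact ⟨(cons_le.1 (hF _ hu)).2, h1⟩
  -- the next element
  obtain ⟨w0, hw0F, hw0G⟩ : ∃ w, w ∈ sec a F ∧ w ∉ sec a G := by
    by_contra hc
    push Not at hc
    exact absurd (Finset.card_le_card (fun u hu => hc u hu)) (by omega)
  have hw0 := hFs a w0 hw0F
  let W := (box (Fin.tail m)).filter fun u => rk u = r - a ∧ u ∉ sec a G
  have hW0 : w0 ∈ W := by
    rw [Finset.mem_filter, mem_box]
    exact ⟨hw0.1, by omega, hw0G⟩
  obtain ⟨p, hpW, hpmin⟩ := Finset.exists_min_image W (code (Fin.tail m)) ⟨w0, hW0⟩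
  rw [Finset.mem_filter, mem_box] at hpW
  obtain ⟨hpm, hpr, hpG⟩ := hpW
  have hGa := hG.sec a
  set H := insert p (sec a G) with hH
  have hHinit : IsInit (Fin.tail m) (r - a) H := by
    constructor
    · intro u hu
      rw [hH, Finset.mem_insert] at hu
      rcases hu with rfl | hu
      · exact hpm
      · exact hGa.le u hu
    · intro u hu
      rw [hH, Finset.mem_insert] at hu
      rcases hu with rfl | hu
      · exact hpr
      · exact hGa.rank u hu
    · intro u hu v hv hvr hc
      rw [hH, Finset.mem_insert] at hu ⊢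
      rcases hu with rfl | hu
      · right
        by_contra hvG
        have hvW : v ∈ W := by
          rw [Finset.mem_filter, mem_box]
          exact ⟨hv, hvr, hvG⟩
        have := hpmin v hvW
        omega
      · right
        exact hGa.init u hu v hv hvr hc
  have hHcard : H.card = (sec a G).card + 1 := by
    rw [hH, Finset.card_insert_of_notMem hpG]
  -- iterated shadows
  have hit : ∀ k, a + k ≤ m 0 → (sh^[k] H).card ≤ (sec (a + k) F).card := by
    intro k
    induction k with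
    | zero => intro _; simp only [Function.iterate_zero, id_eq, Nat.add_zero]; omega
    | succ k ihk =>
      intro hk
      have h1 := ihk (by omega)
      rw [Function.iterate_succ_apply']
      have h2 : IsInit (Fin.tail m) (r - (a + k)) (sh^[k] H) := by
        have := hHinit.iter k
        rwa [Nat.sub_sub] at this
      have h3 := ih (Fin.tail m) hm (r - (a + k)) (sec (a + k) F) (sh^[k] H)
        (fun u hu => (hFs _ u hu).1) (fun u hu => by have := (hFs _ u hu).2; omega) h2 h1
      exact h3.trans (Finset.card_le_card (hS (a + k) (by omega)))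
  obtain ⟨k, rfl⟩ := Nat.exists_eq_add_of_le hab
  refine le_trans (Finset.card_le_card ?_) (hit k hb)
  intro w hw
  have hGb := hG.sec (a + k)
  have hwm := hGb.le w hw
  rw [mem_sec] at hw
  have hwr := hG.rank _ hw
  rw [rk_cons] at hwr
  have hcode : code (Fin.tail m) w ≤ code (Fin.tail m) p := by
    by_contra hc
    push Not at hc
    apply hpG
    rw [mem_sec]
    refine hG.mem_of_le hw ?_ ?_ ?_
    · rw [cons_le]; exact ⟨by omega, hpm⟩
    · rw [rk_cons]; omega
    · rw [code_cons, code_cons]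
      have := Nat.mul_le_mul_left (m 0 + 1) hc.le
      omega
  obtain ⟨z, hz1, hz2, hz3, hz4⟩ := key hwm hpm hcode (by omega)
  have hzH : z ∈ H := hHinit.mem_of_le (Finset.mem_insert_self _ _) hz2 (by omega) hz4
  exact mem_iter_sh k hzH hz1 (by omega)

/-- **The Clements-Lindstroem theorem.** In a product of chains, among all families of given size
and rank, the initial segments have the smallest shadows. -/
theorem clements_lindstrom (n : ℕ) : CLS n := by
  classical
  induction n with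
  | zero =>
    intro m _ r F G _ _ _ _
    have : sh G = ∅ := by
      rw [Finset.eq_empty_iff_forall_notMem]
      intro v hv
      rw [mem_sh] at hv
      obtain ⟨i, _⟩ := hv
      exact i.elim0
    rw [this]
    simp
  | succ n ih =>
    intro m hm r F G hF hFr hG hc
    have hm0 : ∀ i, m i ≤ m 0 := fun i => hm (Fin.zero_le i)
    have hmt : Antitone (Fin.tail m) := fun x y hxy => hm (Fin.succ_le_succ_iff.2 hxy)
    obtain ⟨F1, hF1, hF1c⟩ := Finset.exists_subset_card_eq hc
    obtain ⟨F2, h21, h22, h23, h24, h25⟩ := exists_stable hm0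
      (fun u hu => hF u (hF1 hu)) (fun u hu => hFr u (hF1 hu))
    have hsub := Finset.card_le_card (sh_mono hF1)
    have hcard : F2.card = G.card := by omega
    have hS := stab_of_shift h21 h25
    have e1 := card_sh_of_stab (fun u hu => h21 u hu 0) hS
    have e2 := card_sh_of_stab (fun u hu => hG.le u hu 0) hG.stab
    have s1 := card_eq_sum_sec (F := F2) (M := m 0) (fun u hu => h21 u hu 0)
    have s2 := card_eq_sum_sec (F := G) (M := m 0) (fun u hu => hG.le u hu 0)
    have c1 : (sec 0 F2).card ≤ (sec 0 G).card := by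
      by_contra hcon
      push Not at hcon
      have hall : ∀ b ∈ Finset.range (m 0 + 1), (sec b G).card ≤ (sec b F2).card := by
        intro b hb
        rw [Finset.mem_range] at hb
        exact exchange ih hmt h21 h22 hS hG (Nat.zero_le b) (by omega) hcon
      have : ∑ a ∈ Finset.range (m 0 + 1), (sec a G).card
          < ∑ a ∈ Finset.range (m 0 + 1), (sec a F2).card :=
        Finset.sum_lt_sum hall ⟨0, by simp, hcon⟩
      omega
    have c2 : (sec (m 0) G).card ≤ (sec (m 0) F2).card := by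
      by_contra hcon
      push Not at hcon
      have hall : ∀ b ∈ Finset.range (m 0 + 1), (sec b F2).card ≤ (sec b G).card := by
        intro b hb
        rw [Finset.mem_range] at hb
        by_contra hb2
        push Not at hb2
        have := exchange ih hmt h21 h22 hS hG (a := b) (b := m 0) (by omega) le_rfl hb2
        omega
      have : ∑ a ∈ Finset.range (m 0 + 1), (sec a F2).card
          < ∑ a ∈ Finset.range (m 0 + 1), (sec a G).card :=
        Finset.sum_lt_sum hall ⟨m 0, by simp, hcon⟩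
      omega
    have c3 : (sh (sec (m 0) G)).card ≤ (sh (sec (m 0) F2)).card := by
      refine ih (Fin.tail m) hmt (r - m 0) _ _ ?_ ?_ (hG.sec (m 0)) c2
      · intro u hu
        rw [mem_sec] at hu
        exact (cons_le.1 (h21 _ hu)).2
      · intro u hu
        rw [mem_sec] at hu
        have := h22 _ hu
        rw [rk_cons] at this
        omega
    omega

end Pool.Agent.R407.CL
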