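import Pool.Agent.R407.CL3

/-!
# The Clements-Lindstroem theorem, part 4: an inequality for two families in the same level

For families `A`, `B` in the level of rank `t` of a box `m` (all `m i ≥ 1`, antitone) with
`|A| + |B| ≥ |P_t|`, and the initial segment `I` of size `|A| + |B| - |P_t|`,
`|P_(t-1)| + |sh I| ≤ |sh A| + |sh B|`.
-/

set_option autoImplicit false

namespace Pool.Agent.R407.CL

open Finset

/-- The level of rank `r`. -/
def lev {n : ℕ} (m : Fin n → ℕ) (r : ℕ) : Finset (Fin n → ℕ) := (box m).filter fun u => rk u = r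

theorem mem_lev {n : ℕ} {m u : Fin n → ℕ} {r : ℕ} : u ∈ lev m r ↔ u ≤ m ∧ rk u = r := by
  simp [lev, mem_box]

theorem isInit_lev {n : ℕ} (m : Fin n → ℕ) (r : ℕ) : IsInit m r (lev m r) :=
  ⟨fun _ hu => (mem_lev.1 hu).1, fun _ hu => (mem_lev.1 hu).2,
    fun _ _ _ hv hr _ => mem_lev.2 ⟨hv, hr⟩⟩

/-- Initial segments of every size. -/
theorem exists_init {n : ℕ} (m : Fin n → ℕ) (r k : ℕ) (hk : k ≤ (lev m r).card) :
    ∃ G, IsInit m r G ∧ G.card = k := by
  classical
  induction k with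
  | zero => exact ⟨∅, ⟨by simp, by simp, by simp⟩, rfl⟩
  | succ k ih =>
    obtain ⟨G, hG, hGc⟩ := ih (by omega)
    have hsub : G ⊆ lev m r := fun u hu => mem_lev.2 ⟨hG.le u hu, hG.rank u hu⟩
    have hne : (lev m r \ G).Nonempty := by
      rw [← Finset.card_pos, Finset.card_sdiff_of_subset hsub]
      omega
    obtain ⟨p, hp, hmin⟩ := Finset.exists_min_image (lev m r \ G) (code m) hne
    rw [Finset.mem_sdiff, mem_lev] at hp
    refine ⟨insert p G, ⟨?_, ?_, ?_⟩, by rw [Finset.card_insert_of_notMem hp.2, hGc]⟩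
    · intro u hu
      rw [Finset.mem_insert] at hu
      rcases hu with rfl | hu
      · exact hp.1.1
      · exact hG.le u hu
    · intro u hu
      rw [Finset.mem_insert] at hu
      rcases hu with rfl | hu
      · exact hp.1.2
      · exact hG.rank u hu
    · intro u hu v hv hvr hc
      rw [Finset.mem_insert] at hu ⊢
      right
      rcases hu with rfl | hu
      · by_contra hvG
        have := hmin v (Finset.mem_sdiff.2 ⟨mem_lev.2 ⟨hv, hvr⟩, hvG⟩)
        omega
      · exact hG.init u hu v hv hvr hc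

theorem card_sh_le {n : ℕ} {m : Fin n → ℕ} (hm : Antitone m) {r : ℕ} {F G : Finset (Fin n → ℕ)}
    (hF : F ⊆ lev m r) (hG : IsInit m r G) (hc : G.card ≤ F.card) :
    (sh G).card ≤ (sh F).card :=
  clements_lindstrom n m hm r F G (fun _ hu => (mem_lev.1 (hF hu)).1)
    (fun _ hu => (mem_lev.1 (hF hu)).2) hG hc

/-- Every element below the top has an upper cover inside the box. -/
theorem exists_up {n : ℕ} {m w : Fin n → ℕ} (hw : w ≤ m) (h : rk w < rk m) :
    ∃ i, w + Pi.single i 1 ≤ m := by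
  have h1 : ∃ i, w i < m i := by
    by_contra hc
    push Not at hc
    have : rk m ≤ rk w := Finset.sum_le_sum fun i _ => hc i
    omega
  obtain ⟨i, hi⟩ := h1
  refine ⟨i, fun j => ?_⟩
  by_cases hj : j = i
  · subst hj; simp; omega
  · simp [hj, hw j]

/-! ### Appending coordinates -/

theorem tail_snoc {n : ℕ} (u : Fin (n + 1) → ℕ) (x : ℕ) :
    Fin.tail (Fin.snoc u x : Fin (n + 2) → ℕ) = Fin.snoc (Fin.tail u) x := by
  funext i
  refine Fin.lastCases ?_ (fun j => ?_) i
  · rw [Fin.snoc_last]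
    show (Fin.snoc u x : Fin (n + 2) → ℕ) (Fin.last n).succ = x
    rw [Fin.succ_last, Fin.snoc_last]
  · rw [Fin.snoc_castSucc]
    show (Fin.snoc u x : Fin (n + 2) → ℕ) j.castSucc.succ = u j.succ
    rw [Fin.succ_castSucc, Fin.snoc_castSucc]

theorem code_snoc {n : ℕ} (m : Fin n → ℕ) (c : ℕ) (u : Fin n → ℕ) (x : ℕ) :
    code (Fin.snoc m c : Fin (n + 1) → ℕ) (Fin.snoc u x) = code m u + (∏ i, (m i + 1)) * x := by
  induction n with
  | zero => simp [code, Fin.snoc]
  | succ n ih =>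
    have h1 := ih (Fin.tail m) (Fin.tail u)
    rw [code, tail_snoc, tail_snoc, h1, Fin.prod_univ_succ]
    have h2 : (Fin.snoc u x : Fin (n + 2) → ℕ) 0 = u 0 := by
      have := Fin.snoc_castSucc (α := fun _ => ℕ) x u 0
      simpa using this
    have h3 : (Fin.snoc m c : Fin (n + 2) → ℕ) 0 = m 0 := by
      have := Fin.snoc_castSucc (α := fun _ => ℕ) c m 0
      simpa using this
    rw [h2, h3]
    have h4 : code m u = u 0 + (m 0 + 1) * code (Fin.tail m) (Fin.tail u) := rfl
    rw [h4]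
    have h5 : ∏ i : Fin n, (Fin.tail m i + 1) = ∏ i : Fin n, (m i.succ + 1) := rfl
    rw [h5]
    ring

theorem code_lt {n : ℕ} {m u : Fin n → ℕ} (hu : u ≤ m) : code m u < ∏ i, (m i + 1) := by
  induction n with
  | zero => simp [code]
  | succ n ih =>
    have h1 := ih (tail_le hu)
    have h2 : u 0 ≤ m 0 := hu 0
    rw [Fin.prod_univ_succ]
    simp only [code]
    have h3 : (m 0 + 1) * (code (Fin.tail m) (Fin.tail u) + 1)
        ≤ (m 0 + 1) * ∏ i : Fin n, (Fin.tail m i + 1) := Nat.mul_le_mul_left _ h1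
    have h5 : ∏ i : Fin n, (Fin.tail m i + 1) = ∏ i : Fin n, (m i.succ + 1) := rfl
    rw [h5] at h3
    nlinarith

/-- Append two coordinates. -/
def E {n : ℕ} (x y : ℕ) (u : Fin n → ℕ) : Fin (n + 2) → ℕ :=
  Fin.snoc (Fin.snoc u x : Fin (n + 1) → ℕ) y

/-- The enlarged box. -/
def mQ {n : ℕ} (m : Fin n → ℕ) : Fin (n + 2) → ℕ := E 1 1 m

theorem E_inj {n : ℕ} {x y x' y' : ℕ} {u u' : Fin n → ℕ} (h : E x y u = E x' y' u') :
    x = x' ∧ y = y' ∧ u = u' := by
  unfold E at h
  have h1 : y = y' := by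
    have := congrFun h (Fin.last (n + 1))
    simpa using this
  have h2 : (Fin.snoc u x : Fin (n + 1) → ℕ) = Fin.snoc u' x' := by
    funext i
    have := congrFun h i.castSucc
    simpa using this
  have h3 : x = x' := by
    have := congrFun h2 (Fin.last n)
    simpa using this
  refine ⟨h3, h1, ?_⟩
  funext i
  have := congrFun h2 i.castSucc
  simpa using this

theorem E_surj {n : ℕ} (v : Fin (n + 2) → ℕ) : ∃ x y, ∃ u : Fin n → ℕ, v = E x y u := by
  refine ⟨Fin.init v (Fin.last n), v (Fin.last (n + 1)), Fin.init (Fin.init v), ?_⟩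
  unfold E
  rw [Fin.snoc_init_self, Fin.snoc_init_self]

theorem E_le {n : ℕ} {m u : Fin n → ℕ} {x y : ℕ} : E x y u ≤ mQ m ↔ u ≤ m ∧ x ≤ 1 ∧ y ≤ 1 := by
  unfold mQ E
  constructor
  · intro h
    refine ⟨fun i => ?_, ?_, ?_⟩
    · have := h i.castSucc.castSucc
      simpa using this
    · have := h (Fin.last n).castSucc
      simpa using this
    · have := h (Fin.last (n + 1))
      simpa using this
  · rintro ⟨h1, h2, h3⟩ i
    refine Fin.lastCases ?_ (fun j => ?_) i
    · simpa using h3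
    · refine Fin.lastCases ?_ (fun l => ?_) j
      · simpa using h2
      · simpa using h1 l

theorem rk_E {n : ℕ} (x y : ℕ) (u : Fin n → ℕ) : rk (E x y u) = rk u + x + y := by
  unfold rk E
  rw [Fin.sum_univ_castSucc, Fin.sum_univ_castSucc]
  simp

theorem code_E {n : ℕ} (m : Fin n → ℕ) (x y : ℕ) (u : Fin n → ℕ) :
    code (mQ m) (E x y u) = code m u + (∏ i, (m i + 1)) * x + (∏ i, (m i + 1)) * 2 * y := by
  unfold mQ E
  rw [code_snoc, code_snoc, Fin.prod_univ_castSucc]
  simp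

theorem antitone_mQ {n : ℕ} {m : Fin n → ℕ} (hm : Antitone m) (h1 : ∀ i, 1 ≤ m i) :
    Antitone (mQ m) := by
  intro i j hij
  unfold mQ E
  revert hij
  refine Fin.lastCases ?_ (fun j' => ?_) j
  · intro _
    refine Fin.lastCases ?_ (fun i' => ?_) i
    · exact le_rfl
    · refine Fin.lastCases ?_ (fun l => ?_) i'
      · simp
      · simpa using h1 l
  · refine Fin.lastCases ?_ (fun i' => ?_) i
    · intro h
      exact absurd (lt_of_le_of_lt h (Fin.castSucc_lt_last j')) (lt_irrefl _)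
    · intro h
      rw [Fin.castSucc_le_castSucc_iff] at h
      revert h
      refine Fin.lastCases ?_ (fun j'' => ?_) j'
      · intro _
        refine Fin.lastCases ?_ (fun l => ?_) i'
        · simp
        · simpa using h1 l
      · refine Fin.lastCases ?_ (fun i'' => ?_) i'
        · intro h
          exact absurd (lt_of_le_of_lt h (Fin.castSucc_lt_last j'')) (lt_irrefl _)
        · intro h
          rw [Fin.castSucc_le_castSucc_iff] at h
          simpa using hm h

theorem E_add_last {n : ℕ} (x y : ℕ) (u : Fin n → ℕ) :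
    E x y u + Pi.single (Fin.last (n + 1)) 1 = E x (y + 1) u := by
  unfold E
  funext i
  refine Fin.lastCases ?_ (fun j => ?_) i
  · simp
  · simp [Fin.ne_of_lt (Fin.castSucc_lt_last j)]

theorem E_add_mid {n : ℕ} (x y : ℕ) (u : Fin n → ℕ) :
    E x y u + Pi.single (Fin.last n).castSucc 1 = E (x + 1) y u := by
  unfold E
  funext i
  refine Fin.lastCases ?_ (fun j => ?_) i
  · simp [(Fin.ne_of_lt (Fin.castSucc_lt_last (Fin.last n))).symm]
  · refine Fin.lastCases ?_ (fun l => ?_) j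
    · simp
    · simp [Fin.ne_of_lt (Fin.castSucc_lt_last l)]

theorem E_add_first {n : ℕ} (x y : ℕ) (u : Fin n → ℕ) (i : Fin n) :
    E x y u + Pi.single i.castSucc.castSucc 1 = E x y (u + Pi.single i 1) := by
  unfold E
  funext k
  refine Fin.lastCases ?_ (fun j => ?_) k
  · simp [(Fin.ne_of_lt (Fin.castSucc_lt_last i.castSucc)).symm]
  · refine Fin.lastCases ?_ (fun l => ?_) j
    · simp [(Fin.ne_of_lt (Fin.castSucc_lt_last i)).symm]
    · by_cases hl : l = i
      · subst hl; simp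
      · simp [hl]

/-- Membership in the shadow of a family in the enlarged box. -/
theorem mem_sh_E {n : ℕ} {F : Finset (Fin (n + 2) → ℕ)} {x y : ℕ} {u : Fin n → ℕ} :
    E x y u ∈ sh F ↔ E x (y + 1) u ∈ F ∨ E (x + 1) y u ∈ F ∨
      ∃ i, E x y (u + Pi.single i 1) ∈ F := by
  rw [mem_sh]
  constructor
  · rintro ⟨i, hi⟩
    revert hi
    refine Fin.lastCases ?_ (fun j => ?_) i
    · intro h; left; rwa [E_add_last] at h
    · refine Fin.lastCases ?_ (fun l => ?_) j
      · intro h; right; left; rwa [E_add_mid] at h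
      · intro h; right; right; exact ⟨l, by rwa [E_add_first] at h⟩
  · rintro (h | h | ⟨i, h⟩)
    · exact ⟨_, by rwa [E_add_last]⟩
    · exact ⟨_, by rwa [E_add_mid]⟩
    · exact ⟨i.castSucc.castSucc, by rwa [E_add_first]⟩

/-- The three block family. -/
def three {n : ℕ} (X Y Z : Finset (Fin n → ℕ)) : Finset (Fin (n + 2) → ℕ) :=
  X.image (E 0 0) ∪ Y.image (E 1 0) ∪ Z.image (E 0 1)

theorem mem_three {n : ℕ} {X Y Z : Finset (Fin n → ℕ)} {x y : ℕ} {u : Fin n → ℕ} :
    E x y u ∈ three X Y Z ↔ (x = 0 ∧ y = 0 ∧ u ∈ X) ∨ (x = 1 ∧ y = 0 ∧ u ∈ Y) ∨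
      (x = 0 ∧ y = 1 ∧ u ∈ Z) := by
  unfold three
  simp only [Finset.mem_union, Finset.mem_image]
  constructor
  · rintro ((⟨v, hv, h⟩ | ⟨v, hv, h⟩) | ⟨v, hv, h⟩)
    · obtain ⟨rfl, rfl, rfl⟩ := E_inj h; exact Or.inl ⟨rfl, rfl, hv⟩
    · obtain ⟨rfl, rfl, rfl⟩ := E_inj h; exact Or.inr (Or.inl ⟨rfl, rfl, hv⟩)
    · obtain ⟨rfl, rfl, rfl⟩ := E_inj h; exact Or.inr (Or.inr ⟨rfl, rfl, hv⟩)
  · rintro (⟨rfl, rfl, h⟩ | ⟨rfl, rfl, h⟩ | ⟨rfl, rfl, h⟩)
    · exact Or.inl (Or.inl ⟨u, h, rfl⟩)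
    · exact Or.inl (Or.inr ⟨u, h, rfl⟩)
    · exact Or.inr ⟨u, h, rfl⟩

theorem card_three {n : ℕ} (X Y Z : Finset (Fin n → ℕ)) :
    (three X Y Z).card = X.card + Y.card + Z.card := by
  unfold three
  have hinj : ∀ x y, Function.Injective (E (n := n) x y) := fun x y u v h => (E_inj h).2.2
  rw [Finset.card_union_of_disjoint, Finset.card_union_of_disjoint,
    Finset.card_image_of_injective _ (hinj _ _), Finset.card_image_of_injective _ (hinj _ _),
    Finset.card_image_of_injective _ (hinj _ _)]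
  · rw [Finset.disjoint_left]
    intro v hv hv'
    rw [Finset.mem_image] at hv hv'
    obtain ⟨a, _, rfl⟩ := hv
    obtain ⟨b, _, h⟩ := hv'
    have := (E_inj h).1
    omega
  · rw [Finset.disjoint_left]
    intro v hv hv'
    rw [Finset.mem_union, Finset.mem_image, Finset.mem_image] at hv
    rw [Finset.mem_image] at hv'
    obtain ⟨b, _, h⟩ := hv'
    rcases hv with ⟨a, _, rfl⟩ | ⟨a, _, rfl⟩
    · have := (E_inj h).2.1; omega
    · have := (E_inj h).2.1; omega

/-- The two family inequality. -/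
theorem two_families {n : ℕ} {m : Fin n → ℕ} (hm : Antitone m) (h1 : ∀ i, 1 ≤ m i) {t : ℕ}
    (ht : t + 1 ≤ rk m) {A B I : Finset (Fin n → ℕ)} (hA : A ⊆ lev m (t + 1))
    (hB : B ⊆ lev m (t + 1)) (hI : IsInit m (t + 1) I)
    (hc : I.card + (lev m (t + 1)).card = A.card + B.card) :
    (lev m t).card + (sh I).card ≤ (sh A).card + (sh B).card := by
  classical
  have hlevsub : ∀ {r : ℕ} {u : Fin n → ℕ} {i : Fin n}, u + Pi.single i 1 ∈ lev m (r + 1) →
      u ∈ lev m r := by
    intro r u i h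
    rw [mem_lev, rk_add_single] at h
    rw [mem_lev]
    exact ⟨(le_add_single u i).trans h.1, by omega⟩
  set F := three (lev m (t + 2)) B A with hF
  set G := three (lev m (t + 2)) (lev m (t + 1)) I with hG
  have hFl : F ⊆ lev (mQ m) (t + 2) := by
    intro v hv
    obtain ⟨x, y, u, rfl⟩ := E_surj v
    rw [hF, mem_three] at hv
    rw [mem_lev, E_le, rk_E]
    rcases hv with ⟨rfl, rfl, h⟩ | ⟨rfl, rfl, h⟩ | ⟨rfl, rfl, h⟩
    · rw [mem_lev] at h; exact ⟨⟨h.1, by omega, by omega⟩, by omega⟩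
    · have := mem_lev.1 (hB h); exact ⟨⟨this.1, by omega, by omega⟩, by omega⟩
    · have := mem_lev.1 (hA h); exact ⟨⟨this.1, by omega, by omega⟩, by omega⟩
  have hGi : IsInit (mQ m) (t + 2) G := by
    constructor
    · intro v hv
      obtain ⟨x, y, u, rfl⟩ := E_surj v
      rw [hG, mem_three] at hv
      rw [E_le]
      rcases hv with ⟨rfl, rfl, h⟩ | ⟨rfl, rfl, h⟩ | ⟨rfl, rfl, h⟩
      · exact ⟨(mem_lev.1 h).1, by omega, by omega⟩
      · exact ⟨(mem_lev.1 h).1, by omega, by omega⟩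
      · exact ⟨hI.le _ h, by omega, by omega⟩
    · intro v hv
      obtain ⟨x, y, u, rfl⟩ := E_surj v
      rw [hG, mem_three] at hv
      rw [rk_E]
      rcases hv with ⟨rfl, rfl, h⟩ | ⟨rfl, rfl, h⟩ | ⟨rfl, rfl, h⟩
      · have := (mem_lev.1 h).2; omega
      · have := (mem_lev.1 h).2; omega
      · have := hI.rank _ h; omega
    · intro v hv w hw hwr hcd
      obtain ⟨x, y, u, rfl⟩ := E_surj v
      obtain ⟨x', y', u', rfl⟩ := E_surj w
      rw [hG, mem_three] at hv ⊢
      rw [E_le] at hw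
      obtain ⟨hu', hx', hy'⟩ := hw
      rw [rk_E] at hwr
      rw [code_E, code_E] at hcd
      have hcu' := code_lt hu'
      set N := ∏ i, (m i + 1) with hN
      have hx'c : x' = 0 ∨ x' = 1 := by omega
      have hy'c : y' = 0 ∨ y' = 1 := by omega
      rcases hx'c with rfl | rfl <;> rcases hy'c with rfl | rfl
      · left
        exact ⟨rfl, rfl, mem_lev.2 ⟨hu', by omega⟩⟩
      · right; right
        rcases hv with ⟨rfl, rfl, h⟩ | ⟨rfl, rfl, h⟩ | ⟨rfl, rfl, h⟩
        · have := code_lt (mem_lev.1 h).1; rw [← hN] at this; omega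
        · have := code_lt (mem_lev.1 h).1; rw [← hN] at this; omega
        · refine ⟨rfl, rfl, hI.init u h u' hu' (by omega) (by omega)⟩
      · right; left
        exact ⟨rfl, rfl, mem_lev.2 ⟨hu', by omega⟩⟩
      · exfalso
        rcases hv with ⟨rfl, rfl, h⟩ | ⟨rfl, rfl, h⟩ | ⟨rfl, rfl, h⟩
        · have := code_lt (mem_lev.1 h).1; rw [← hN] at this; omega
        · have := code_lt (mem_lev.1 h).1; rw [← hN] at this; omega
        · have := code_lt (hI.le _ h); rw [← hN] at this; omega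
  have hcard : G.card ≤ F.card := by
    rw [hF, hG, card_three, card_three]; omega
  have hmain := card_sh_le (antitone_mQ hm h1) hFl hGi hcard
  -- upper bound
  have hup : sh F ⊆ three (lev m (t + 1)) (sh B) (sh A) := by
    intro v hv
    obtain ⟨x, y, u, rfl⟩ := E_surj v
    rw [mem_sh_E] at hv
    rw [mem_three]
    simp only [hF, mem_three] at hv
    rcases hv with h | h | ⟨i, h⟩
    · rcases h with ⟨_, h, _⟩ | ⟨_, h, _⟩ | ⟨hx, hy, h⟩
      · omega
      · omega
      · left; exact ⟨hx, by omega, hA h⟩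
    · rcases h with ⟨h, _, _⟩ | ⟨hx, hy, h⟩ | ⟨h, _, _⟩
      · omega
      · left; exact ⟨by omega, hy, hB h⟩
      · omega
    · rcases h with ⟨hx, hy, h⟩ | ⟨hx, hy, h⟩ | ⟨hx, hy, h⟩
      · left; exact ⟨hx, hy, hlevsub h⟩
      · right; left; exact ⟨hx, hy, mem_sh.2 ⟨i, h⟩⟩
      · right; right; exact ⟨hx, hy, mem_sh.2 ⟨i, h⟩⟩
  -- lower bound
  have hlow : three (lev m (t + 1)) (lev m t) (sh I) ⊆ sh G := by
    intro v hv
    obtain ⟨x, y, u, rfl⟩ := E_surj v
    rw [mem_three] at hv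
    rw [mem_sh_E]
    simp only [hG, mem_three]
    rcases hv with ⟨rfl, rfl, h⟩ | ⟨rfl, rfl, h⟩ | ⟨rfl, rfl, h⟩
    · right; left; right; left; exact ⟨rfl, rfl, h⟩
    · right; right
      rw [mem_lev] at h
      obtain ⟨i, hi⟩ := exists_up h.1 (by omega)
      exact ⟨i, Or.inr (Or.inl ⟨rfl, rfl, mem_lev.2 ⟨hi, by rw [rk_add_single]; omega⟩⟩)⟩
    · right; right
      rw [mem_sh] at h
      obtain ⟨i, hi⟩ := h
      exact ⟨i, Or.inr (Or.inr ⟨rfl, rfl, hi⟩)⟩
  have h2 := Finset.card_le_card hup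
  have h3 := Finset.card_le_card hlow
  rw [card_three] at h2 h3
  omega

end Pool.Agent.R407.CL
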