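import Pool.Agent.R407.CL4

/-!
# Order ideals in products of chains: the difference vector is the rank vector of an order ideal
-/

set_option autoImplicit false

namespace Pool.Agent.R407.CL

open Finset

section Dual

variable {n : ℕ} {m : Fin n → ℕ}

theorem sub_sub_self' {u : Fin n → ℕ} (hu : u ≤ m) : m - (m - u) = u := by
  funext i
  have : u i ≤ m i := hu i
  simp only [Pi.sub_apply]
  omega

theorem rk_sub {u : Fin n → ℕ} (hu : u ≤ m) : rk (m - u) + rk u = rk m := by
  unfold rk
  rw [← Finset.sum_add_distrib]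
  refine Finset.sum_congr rfl fun i _ => ?_
  have : u i ≤ m i := hu i
  simp only [Pi.sub_apply]
  omega

theorem sub_le_self' (u : Fin n → ℕ) : m - u ≤ m := fun _ => Nat.sub_le _ _

/-- Complementation is injective on the box. -/
theorem card_image_sub (F : Finset (Fin n → ℕ)) (hF : ∀ u ∈ F, u ≤ m) :
    (F.image fun u => m - u).card = F.card := by
  refine Finset.card_image_of_injOn fun u hu v hv huv => ?_
  have h : m - u = m - v := huv
  rw [← sub_sub_self' (hF u hu), ← sub_sub_self' (hF v hv), h]

theorem card_lev_dual {r s : ℕ} (h : r + s = rk m) : (lev m r).card = (lev m s).card := by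
  have key : ∀ r s : ℕ, r + s = rk m → (lev m r).card ≤ (lev m s).card := by
    intro r s h
    rw [← card_image_sub (m := m) (lev m r) (fun u hu => (mem_lev.1 hu).1)]
    refine Finset.card_le_card fun v hv => ?_
    rw [Finset.mem_image] at hv
    obtain ⟨u, hu, rfl⟩ := hv
    rw [mem_lev] at hu ⊢
    have := rk_sub hu.1
    exact ⟨sub_le_self' u, by omega⟩
  exact le_antisymm (key r s h) (key s r (by omega))

end Dual

/-- For a box of odd rank `2t + 1`, shadows from level `t + 1` to level `t` do not shrink. -/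
theorem middle {n : ℕ} {m : Fin n → ℕ} (hm : Antitone m) (h1 : ∀ i, 1 ≤ m i) {t : ℕ}
    (ht : rk m = 2 * t + 1) {F : Finset (Fin n → ℕ)} (hF : F ⊆ lev m (t + 1)) :
    F.card ≤ (sh F).card := by
  classical
  by_contra hcon
  push Not at hcon
  have hFX := Finset.card_le_card hF
  obtain ⟨I, hI, hIc⟩ := exists_init m (t + 1) F.card hFX
  have hIs := card_sh_le hm hF hI hIc.le
  have hX : (lev m t).card = (lev m (t + 1)).card := card_lev_dual (by omega)
  have hIl : I ⊆ lev m (t + 1) := fun u hu => mem_lev.2 ⟨hI.le u hu, hI.rank u hu⟩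
  have hshl : sh I ⊆ lev m t := by
    intro v hv
    exact mem_lev.2 ⟨hI.sh.le v hv, hI.sh.rank v hv⟩
  set G := (lev m t \ sh I).image fun u => m - u with hG
  have hGc : G.card = (lev m t).card - (sh I).card := by
    rw [hG, card_image_sub _ (fun u hu => (mem_lev.1 (Finset.mem_sdiff.1 hu).1).1),
      Finset.card_sdiff_of_subset hshl]
  have hGl : G ⊆ lev m (t + 1) := by
    intro v hv
    rw [hG, Finset.mem_image] at hv
    obtain ⟨u, hu, rfl⟩ := hv
    rw [Finset.mem_sdiff, mem_lev] at hu
    have := rk_sub hu.1.1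
    exact mem_lev.2 ⟨sub_le_self' u, by omega⟩
  have hGs : sh G ⊆ (lev m (t + 1) \ I).image fun u => m - u := by
    intro v hv
    rw [mem_sh] at hv
    obtain ⟨i, hi⟩ := hv
    have hil := mem_lev.1 (hGl hi)
    rw [rk_add_single] at hil
    rw [hG, Finset.mem_image] at hi
    obtain ⟨u, hu, hu2⟩ := hi
    rw [Finset.mem_sdiff, mem_lev] at hu
    have hvm : v ≤ m := (le_add_single v i).trans hil.1
    rw [Finset.mem_image]
    refine ⟨m - v, ?_, sub_sub_self' hvm⟩
    rw [Finset.mem_sdiff, mem_lev]
    have hrv := rk_sub hvm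
    refine ⟨⟨sub_le_self' v, by omega⟩, fun hc => hu.2 ?_⟩
    have hle : u ≤ m - v := by
      intro j
      have h3 := congrFun hu2 j
      have h4 : u j ≤ m j := hu.1.1 j
      simp only [Pi.sub_apply, Pi.add_apply] at h3 ⊢
      have h5 : v j + (Pi.single i 1 : Fin n → ℕ) j ≤ m j := hil.1 j
      omega
    exact mem_sh_of_le hc hle (by omega)
  have hGs2 := Finset.card_le_card hGs
  rw [card_image_sub _ (fun u hu => (mem_lev.1 (Finset.mem_sdiff.1 hu).1).1),
    Finset.card_sdiff_of_subset hIl] at hGs2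
  obtain ⟨J, hJ, hJc⟩ := exists_init m (t + 1) G.card (Finset.card_le_card hGl)
  obtain ⟨K, hK, hKc⟩ := exists_init m (t + 1) (sh I).card
    (by have := Finset.card_le_card hshl; omega)
  have hJs := card_sh_le hm hGl hJ hJc.le
  have hKI : K ⊆ I := hK.subset_of_card hI (by omega)
  have hKs := Finset.card_le_card (sh_mono hKI)
  have hJl : J ⊆ lev m (t + 1) := fun u hu => mem_lev.2 ⟨hJ.le u hu, hJ.rank u hu⟩
  have hKl : K ⊆ lev m (t + 1) := fun u hu => mem_lev.2 ⟨hK.le u hu, hK.rank u hu⟩
  have hem : IsInit m (t + 1) (∅ : Finset (Fin n → ℕ)) := ⟨by simp, by simp, by simp⟩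
  have hshc := Finset.card_le_card hshl
  have h2 := two_families hm h1 (t := t) (by omega) hKl hJl hem
    (by rw [Finset.card_empty, hKc, hJc, hGc]; omega)
  have : (lev m t).card ≤ (sh K).card + (sh J).card := by omega
  omega

/-- Down-closed finite sets of exponent vectors. -/
def Down {n : ℕ} (L : Finset (Fin n → ℕ)) : Prop := ∀ u ∈ L, ∀ v, v ≤ u → v ∈ L

/-- The number of elements of rank `q`. -/
def hf {n : ℕ} (L : Finset (Fin n → ℕ)) (q : ℕ) : ℕ := (L.filter fun u => rk u = q).card

theorem Down.sh {n : ℕ} {L : Finset (Fin n → ℕ)} (hL : Down L) (q : ℕ) :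
    CL.sh (L.filter fun u => rk u = q + 1) ⊆ L.filter fun u => rk u = q := by
  intro v hv
  rw [mem_sh] at hv
  obtain ⟨i, hi⟩ := hv
  rw [Finset.mem_filter, rk_add_single] at hi
  rw [Finset.mem_filter]
  exact ⟨hL _ hi.1 _ (le_add_single v i), by omega⟩

/-- The dual family at rank `q`. -/
def du {n : ℕ} (m : Fin n → ℕ) (L : Finset (Fin n → ℕ)) (q : ℕ) : Finset (Fin n → ℕ) :=
  (lev m q).filter fun u => m - u ∉ L

theorem card_du {n : ℕ} {m : Fin n → ℕ} {L : Finset (Fin n → ℕ)} (hLm : ∀ u ∈ L, u ≤ m)
    {q s : ℕ} (h : q + s = rk m) : (du m L q).card + hf L s = (lev m q).card := by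
  classical
  have h1 : ((lev m q).filter fun u => m - u ∈ L).card = hf L s := by
    unfold hf
    rw [← card_image_sub (m := m) (L.filter fun u => rk u = s)
      (fun u hu => hLm u (Finset.mem_filter.1 hu).1)]
    congr 1
    ext v
    rw [Finset.mem_filter, mem_lev, Finset.mem_image]
    constructor
    · rintro ⟨⟨hv1, hv2⟩, hv3⟩
      refine ⟨m - v, Finset.mem_filter.2 ⟨hv3, ?_⟩, sub_sub_self' hv1⟩
      have := rk_sub hv1
      omega
    · rintro ⟨u, hu, rfl⟩
      rw [Finset.mem_filter] at hu
      have h2 := rk_sub (hLm u hu.1)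
      refine ⟨⟨sub_le_self' u, by omega⟩, ?_⟩
      rw [sub_sub_self' (hLm u hu.1)]
      exact hu.1
  rw [← h1, du, add_comm]
  exact Finset.card_filter_add_card_filter_not (s := lev m q) (fun u => m - u ∈ L)

theorem sh_du {n : ℕ} {m : Fin n → ℕ} {L : Finset (Fin n → ℕ)} (hL : Down L) (q : ℕ) :
    sh (du m L (q + 1)) ⊆ du m L q := by
  intro v hv
  rw [mem_sh] at hv
  obtain ⟨i, hi⟩ := hv
  unfold du at hi ⊢
  rw [Finset.mem_filter, mem_lev, rk_add_single] at hi
  rw [Finset.mem_filter, mem_lev]
  refine ⟨⟨(le_add_single v i).trans hi.1.1, by omega⟩, fun hc => hi.2 (hL _ hc _ ?_)⟩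
  intro j
  simp only [Pi.sub_apply, Pi.add_apply]
  omega

theorem nonneg {n : ℕ} {m : Fin n → ℕ} (hm : Antitone m) (h1 : ∀ i, 1 ≤ m i)
    {L : Finset (Fin n → ℕ)} (hL : Down L) (hLm : ∀ u ∈ L, u ≤ m) (j : ℕ) :
    ∀ q, 2 * q + j = rk m → hf L (q + j) ≤ hf L q := by
  classical
  induction j using Nat.strong_induction_on with
  | _ j ih =>
    intro q hq
    rcases j with _ | _ | j
    · exact le_rfl
    · have hsub : (L.filter fun u => rk u = q + 1) ⊆ lev m (q + 1) := by
        intro u hu
        rw [Finset.mem_filter] at hu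
        exact mem_lev.2 ⟨hLm u hu.1, hu.2⟩
      exact (middle hm h1 (by omega) hsub).trans (Finset.card_le_card (hL.sh q))
    · have h2 := ih j (by omega) (q + 1) (by omega)
      have hsub : (L.filter fun u => rk u = q + 1) ⊆ lev m (q + 1) := by
        intro u hu
        rw [Finset.mem_filter] at hu
        exact mem_lev.2 ⟨hLm u hu.1, hu.2⟩
      have hdsub : du m L (q + 1) ⊆ lev m (q + 1) := Finset.filter_subset _ _
      have hd1 := card_du hLm (q := q + 1) (s := q + 1 + j) (by omega)
      have hd0 := card_du hLm (q := q) (s := q + (j + 1 + 1)) (by omega)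
      have hA : (L.filter fun u => rk u = q + 1).card = hf L (q + 1) := rfl
      obtain ⟨I, hI, hIc⟩ := exists_init m (q + 1)
        (hf L (q + 1) + (du m L (q + 1)).card - (lev m (q + 1)).card)
        (by have := Finset.card_le_card hsub; have := Finset.card_le_card hdsub; omega)
      have h3 := two_families hm h1 (t := q) (by omega) hsub hdsub hI (by omega)
      have h4 := Finset.card_le_card (hL.sh q)
      have h5 := Finset.card_le_card (sh_du (m := m) hL q)
      have h6 : (L.filter fun u => rk u = q).card = hf L q := rfl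
      omega

/-- One-step down-closedness suffices. -/
theorem down_of_step {n : ℕ} {L : Finset (Fin n → ℕ)}
    (h : ∀ u : Fin n → ℕ, ∀ i, u + Pi.single i 1 ∈ L → u ∈ L) : Down L := by
  have key : ∀ k : ℕ, ∀ u ∈ L, ∀ v, v ≤ u → rk u = rk v + k → v ∈ L := by
    intro k
    induction k with
    | zero =>
      intro u hu v hv hr
      have h2 : rk v = rk u := by omega
      have : v = u := by
        funext i
        unfold rk at h2
        exact (Finset.sum_eq_sum_iff_of_le fun k _ => hv k).1 h2 i (Finset.mem_univ i)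
      rw [this]; exact hu
    | succ k ih =>
      intro u hu v hv hr
      obtain ⟨y, hy1, hy2, hy3⟩ := interp hv (rk v + k) (by omega) (by omega)
      obtain ⟨i, hi⟩ := exists_single hy2 (by omega)
      exact ih y (h y i (by rw [hi]; exact hu)) v hy1 hy3
  intro u hu v hv
  have := rk_mono hv
  exact key (rk u - rk v) u hu v hv (by omega)

/-- The difference vector of an order ideal of a sorted box is a rank vector. -/
theorem exists_gamma_sorted {n : ℕ} {m : Fin n → ℕ} (hm : Antitone m) (h1 : ∀ i, 1 ≤ m i)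
    {L : Finset (Fin n → ℕ)} (hL : Down L) (hLm : ∀ u ∈ L, u ≤ m) :
    ∃ Γ : Finset (Fin n → ℕ), Down Γ ∧ (∀ u ∈ Γ, 2 * rk u < rk m) ∧
      ∀ q, 2 * q < rk m → hf Γ q + hf L (rk m - q) = hf L q := by
  classical
  have hex : ∀ q, 2 * q < rk m → ∃ G, IsInit m q G ∧ G.card = hf L q - hf L (rk m - q) := by
    intro q hq
    refine exists_init m q _ ?_
    have hsub : (L.filter fun u => rk u = q) ⊆ lev m q := by
      intro u hu
      rw [Finset.mem_filter] at hu
      exact mem_lev.2 ⟨hLm u hu.1, hu.2⟩
    have := Finset.card_le_card hsub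
    have h6 : (L.filter fun u => rk u = q).card = hf L q := rfl
    omega
  choose! g hg1 hg2 using hex
  have hle : ∀ q, 2 * q < rk m → hf L (rk m - q) ≤ hf L q := by
    intro q hq
    have := nonneg hm h1 hL hLm (rk m - 2 * q) q (by omega)
    rwa [show q + (rk m - 2 * q) = rk m - q by omega] at this
  set Γ := ((Finset.range (rk m)).filter fun q => 2 * q < rk m).biUnion g with hΓ
  have hmem : ∀ u, u ∈ Γ ↔ 2 * rk u < rk m ∧ u ∈ g (rk u) := by
    intro u
    rw [hΓ, Finset.mem_biUnion]
    constructor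
    · rintro ⟨q, hq, hu⟩
      rw [Finset.mem_filter, Finset.mem_range] at hq
      have := (hg1 q hq.2).rank u hu
      rw [this]
      exact ⟨hq.2, hu⟩
    · rintro ⟨h2, h3⟩
      exact ⟨rk u, by rw [Finset.mem_filter, Finset.mem_range]; omega, h3⟩
  refine ⟨Γ, ?_, fun u hu => ((hmem u).1 hu).1, ?_⟩
  · apply down_of_step
    intro u i hu
    rw [hmem, rk_add_single] at hu
    rw [hmem]
    obtain ⟨hu1, hu2⟩ := hu
    refine ⟨by omega, ?_⟩
    set q := rk u with hq
    have hi1 := hg1 (q + 1) (by omega)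
    have hi0 := hg1 q (by omega)
    have hc1 := hg2 (q + 1) (by omega)
    have hc0 := hg2 q (by omega)
    have hl1 := hle (q + 1) (by omega)
    have hl0 := hle q (by omega)
    have hsub : (L.filter fun u => rk u = q + 1) ⊆ lev m (q + 1) := by
      intro u hu
      rw [Finset.mem_filter] at hu
      exact mem_lev.2 ⟨hLm u hu.1, hu.2⟩
    have hdsub : du m L (q + 1) ⊆ lev m (q + 1) := Finset.filter_subset _ _
    have hd1 := card_du hLm (q := q + 1) (s := rk m - (q + 1)) (by omega)
    have hd0 := card_du hLm (q := q) (s := rk m - q) (by omega)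
    have hA : (L.filter fun u => rk u = q + 1).card = hf L (q + 1) := rfl
    have h3 := two_families hm h1 (t := q) (by omega) hsub hdsub hi1 (by omega)
    have h4 := Finset.card_le_card (hL.sh q)
    have h5 := Finset.card_le_card (sh_du (m := m) hL q)
    have h6 : (L.filter fun u => rk u = q).card = hf L q := rfl
    have h7 : sh (g (q + 1)) ⊆ g q := hi1.sh.subset_of_card hi0 (by omega)
    exact h7 (mem_sh.2 ⟨i, hu2⟩)
  · intro q hq
    have h2 : (Γ.filter fun u => rk u = q) = g q := by
      ext u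
      rw [Finset.mem_filter, hmem]
      constructor
      · rintro ⟨⟨_, h3⟩, h4⟩
        rwa [h4] at h3
      · intro h3
        have := (hg1 q hq).rank u h3
        rw [this]
        exact ⟨⟨hq, h3⟩, rfl⟩
    have h3 : hf Γ q = (g q).card := by unfold hf; rw [h2]
    rw [h3, hg2 q hq]
    have := hle q hq
    omega

end Pool.Agent.R407.CL
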