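import Pool.Agent.R407.CL5

/-!
# Order ideals of divisors of an arbitrary monomial
-/

set_option autoImplicit false

namespace Pool.Agent.R407.CL

open Finset

/-- Enumeration of the support of `M` in the order of decreasing exponents. -/
theorem exists_enum {n : ℕ} (M : Fin n → ℕ) : ∃ (k : ℕ) (e : Fin k → Fin n),
    Function.Injective e ∧ (∀ i, i ∉ Set.range e → M i = 0) ∧ Antitone (fun j => M (e j)) ∧
      ∀ j, 1 ≤ M (e j) := by
  classical
  let S : Finset (Fin n) := Finset.univ.filter fun i => 0 < M i
  let e0 : Fin S.card ≃ S := S.equivFin.symm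
  let f : Fin S.card → ℕᵒᵈ := fun i => OrderDual.toDual (M (e0 i).1)
  let σ := Tuple.sort f
  refine ⟨S.card, fun j => (e0 (σ j)).1, ?_, ?_, ?_, ?_⟩
  · intro a b hab
    exact σ.injective (e0.injective (Subtype.ext hab))
  · intro i hi
    by_contra hne
    apply hi
    have hS : i ∈ S := by
      rw [Finset.mem_filter]
      exact ⟨Finset.mem_univ _, by omega⟩
    refine ⟨σ.symm (e0.symm ⟨i, hS⟩), ?_⟩
    simp
  · intro a b hab
    have h := Tuple.monotone_sort f hab
    exact h
  · intro j
    have h := (e0 (σ j)).2
    rw [Finset.mem_filter] at h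
    exact h.2

theorem rk_comp {n k : ℕ} {M : Fin n → ℕ} {e : Fin k → Fin n} (he : Function.Injective e)
    (h0 : ∀ i, i ∉ Set.range e → M i = 0) {u : Fin n → ℕ} (hu : u ≤ M) :
    rk (u ∘ e) = rk u := by
  unfold rk
  refine Fintype.sum_of_injective e he _ _ ?_ (fun _ => rfl)
  intro i hi
  have h1 : u i ≤ M i := hu i
  have h2 := h0 i hi
  omega

/-- The difference vector of an order ideal of divisors of a monomial is the rank vector of an
order ideal of monomials. -/
theorem exists_gamma {n : ℕ} (M : Fin n → ℕ) {L : Finset (Fin n → ℕ)} (hL : Down L)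
    (hLm : ∀ u ∈ L, u ≤ M) :
    ∃ (k : ℕ) (Γ : Finset (Fin k → ℕ)), Down Γ ∧ (∀ u ∈ Γ, 2 * rk u < rk M) ∧
      ∀ q, 2 * q < rk M → hf Γ q + hf L (rk M - q) = hf L q := by
  classical
  obtain ⟨k, e, he, h0, hanti, hpos⟩ := exists_enum M
  set L' := L.image fun u => u ∘ e with hL'
  have hrkM : rk (M ∘ e) = rk M := rk_comp he h0 le_rfl
  have hinj : Set.InjOn (fun u : Fin n → ℕ => u ∘ e) (L : Set (Fin n → ℕ)) := by
    intro u hu v hv huv
    funext i
    by_cases hi : i ∈ Set.range e
    · obtain ⟨j, rfl⟩ := hi
      exact congrFun huv j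
    · have h1 : u i ≤ M i := hLm u hu i
      have h2 : v i ≤ M i := hLm v hv i
      have h3 := h0 i hi
      omega
  have hdown : Down L' := by
    intro u' hu' v hv
    rw [hL', Finset.mem_image] at hu'
    obtain ⟨u, hu, rfl⟩ := hu'
    rw [hL', Finset.mem_image]
    refine ⟨Function.extend e v 0, hL u hu _ ?_, Function.extend_comp he v 0⟩
    intro i
    by_cases hi : i ∈ Set.range e
    · obtain ⟨j, rfl⟩ := hi
      rw [he.extend_apply]
      exact hv j
    · rw [Function.extend_apply' _ _ _ hi]
      exact Nat.zero_le _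
  have hle : ∀ u ∈ L', u ≤ M ∘ e := by
    intro u' hu'
    rw [hL', Finset.mem_image] at hu'
    obtain ⟨u, hu, rfl⟩ := hu'
    intro j
    exact hLm u hu (e j)
  have hhf : ∀ q, hf L' q = hf L q := by
    intro q
    unfold hf
    rw [hL', Finset.filter_image, Finset.card_image_of_injOn]
    · congr 1
      refine Finset.filter_congr fun u hu => ?_
      rw [rk_comp he h0 (hLm u hu)]
    · intro u hu v hv huv
      rw [Finset.mem_coe, Finset.mem_filter] at hu hv
      exact hinj hu.1 hv.1 huv
  obtain ⟨Γ, h1, h2, h3⟩ := exists_gamma_sorted (m := M ∘ e) hanti hpos hdown hle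
  refine ⟨k, Γ, h1, ?_, ?_⟩
  · intro u hu
    rw [← hrkM]
    exact h2 u hu
  · intro q hq
    have := h3 q (by rw [hrkM]; exact hq)
    rwa [hrkM, hhf, hhf] at this

/-! ### Adding generators one at a time -/

/-- The order ideal generated by a finite set of monomials. -/
def gen {n : ℕ} (T : Finset (Fin n → ℕ)) : Finset (Fin n → ℕ) := T.biUnion box

theorem mem_gen {n : ℕ} {T : Finset (Fin n → ℕ)} {u : Fin n → ℕ} :
    u ∈ gen T ↔ ∃ M ∈ T, u ≤ M := by
  simp [gen, mem_box]

theorem hf_box_symm {n : ℕ} (M : Fin n → ℕ) {q s : ℕ} (h : q + s = rk M) :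
    hf (box M) q = hf (box M) s := by
  have : ∀ r, hf (box M) r = (lev M r).card := fun _ => rfl
  rw [this, this, card_lev_dual h]

/-- The complementary vector of the order ideal generated by `T` is a sum of `|T| - 1` rank
vectors of nonempty order ideals. -/
theorem sum_of_gen {n d : ℕ} (hd : 1 ≤ d) (T : Finset (Fin n → ℕ)) (hT : ∀ M ∈ T, rk M = d)
    (hne : T.Nonempty) :
    ∃ (ι : Type) (_ : Fintype ι) (k : ι → ℕ) (Γ : (i : ι) → Finset (Fin (k i) → ℕ)),
      Fintype.card ι + 1 = T.card ∧ (∀ i, Down (Γ i) ∧ (Γ i).Nonempty) ∧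
      ∀ q, 2 * q < d → hf (gen T) (d - q) = hf (gen T) q + ∑ i, hf (Γ i) q := by
  classical
  induction T using Finset.induction_on with
  | empty => exact absurd hne Finset.not_nonempty_empty
  | insert M T hMT ih =>
    have hM : rk M = d := hT M (Finset.mem_insert_self _ _)
    by_cases hT0 : T.Nonempty
    · obtain ⟨ι, hι, k, Γ, h1, h2, h3⟩ := ih (fun N hN => hT N (Finset.mem_insert_of_mem hN)) hT0
      -- the part of the old ideal below `M`
      set L := (gen T).filter fun u => u ≤ M with hLdef
      have hLd : Down L := by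
        intro u hu v hv
        rw [hLdef, Finset.mem_filter, mem_gen] at hu ⊢
        obtain ⟨⟨N, hN, huN⟩, huM⟩ := hu
        exact ⟨⟨N, hN, hv.trans huN⟩, hv.trans huM⟩
      have hLm : ∀ u ∈ L, u ≤ M := fun u hu => (Finset.mem_filter.1 hu).2
      obtain ⟨k0, Γ0, g1, g2, g3⟩ := exists_gamma M hLd hLm
      have hsplit : ∀ q, hf (gen (insert M T)) q + hf L q = hf (gen T) q + hf (box M) q := by
        intro q
        have e1 : gen (insert M T) = gen T ∪ box M := by
          unfold gen
          rw [Finset.biUnion_insert, Finset.union_comm]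
        have e2 : L = gen T ∩ box M := by
          ext u
          rw [hLdef, Finset.mem_filter, Finset.mem_inter, mem_box]
        unfold hf
        rw [e1, e2, Finset.filter_union, Finset.filter_inter_distrib]
        exact Finset.card_union_add_card_inter _ _
      -- the new piece is nonempty
      have hL0 : hf L 0 = 1 := by
        unfold hf
        rw [Finset.card_eq_one]
        refine ⟨0, ?_⟩
        ext u
        rw [Finset.mem_filter, Finset.mem_singleton, hLdef, Finset.mem_filter, mem_gen]
        constructor
        · rintro ⟨_, h⟩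
          funext i
          unfold rk at h
          exact (Finset.sum_eq_zero_iff.1 h) i (Finset.mem_univ i)
        · rintro rfl
          obtain ⟨N, hN⟩ := hT0
          exact ⟨⟨⟨N, hN, fun i => Nat.zero_le _⟩, fun i => Nat.zero_le _⟩, by simp [rk]⟩
      have hLtop : hf L d = 0 := by
        unfold hf
        rw [Finset.card_eq_zero, Finset.eq_empty_iff_forall_notMem]
        intro u hu
        rw [Finset.mem_filter, hLdef, Finset.mem_filter, mem_gen] at hu
        obtain ⟨⟨⟨N, hN, huN⟩, huM⟩, hr⟩ := hu
        have hNr := hT N (Finset.mem_insert_of_mem hN)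
        have e1 : u = M := by
          funext i
          unfold rk at hr hM
          exact (Finset.sum_eq_sum_iff_of_le fun k _ => huM k).1 (by rw [hr, hM]) i
            (Finset.mem_univ i)
        have e2 : u = N := by
          funext i
          unfold rk at hr hNr
          exact (Finset.sum_eq_sum_iff_of_le fun k _ => huN k).1 (by rw [hr, hNr]) i
            (Finset.mem_univ i)
        exact hMT (by rw [← e1, e2]; exact hN)
      have hΓ0 : Γ0.Nonempty := by
        have := g3 0 (by omega)
        rw [hM, Nat.sub_zero, hLtop, hL0] at this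
        rw [← Finset.card_pos]
        have h5 : hf Γ0 0 ≤ Γ0.card := Finset.card_filter_le _ _
        omega
      refine ⟨Option ι, inferInstance, fun o => o.elim k0 k, fun o => match o with
        | none => Γ0
        | some i => Γ i, ?_, ?_, ?_⟩
      · rw [Fintype.card_option, Finset.card_insert_of_notMem hMT, h1]
      · rintro (_ | i)
        · exact ⟨g1, hΓ0⟩
        · exact h2 i
      · intro q hq
        rw [Fintype.sum_option]
        have s1 := hsplit q
        have s2 := hsplit (d - q)
        have s3 := h3 q hq
        have s4 := hf_box_symm M (q := q) (s := d - q) (by omega)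
        have s5 := g3 q (by omega)
        rw [hM] at s5
        show hf (gen (insert M T)) (d - q)
          = hf (gen (insert M T)) q + (hf Γ0 q + ∑ i, hf (Γ i) q)
        omega
    · rw [Finset.not_nonempty_iff_eq_empty] at hT0
      subst hT0
      refine ⟨Empty, inferInstance, fun i => i.elim, fun i => i.elim, by simp, fun i => i.elim, ?_⟩
      intro q hq
      have e1 : gen (insert M ∅) = box M := by
        unfold gen
        simp
      rw [e1]
      simp only [Finset.univ_eq_empty, Finset.sum_empty, Nat.add_zero]
      exact hf_box_symm M (by omega)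

end Pool.Agent.R407.CL
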