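import Mathlib

/-!
# The relative discriminant and the height of a generator

For an extension `L = K(j)` of number fields of degree `g`,
`log |D_L| ≤ g log |D_K| + (g - 1) (n log 2 + 2 h(j))`, where `n = [L : ℚ]` and `h` is the
logarithmic height relative to `L`.
-/

set_option autoImplicit false
set_option linter.unusedSectionVars false

namespace Pool.Agent.R407

open NumberField Module

section Tower

variable {F K L : Type} [Field F] [Field K] [Field L] [Algebra F K] [Algebra K L] [Algebra F L]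
  [IsScalarTower F K L] [FiniteDimensional F K] [FiniteDimensional K L]

open Matrix Kronecker in
/-- the discriminant of a family of products -/
theorem discr_tower {ι κ : Type} [Fintype ι] [DecidableEq ι] [Fintype κ] [DecidableEq κ]
    (ω : Basis ι F K) (e : κ → L) :
    Algebra.discr F (fun p : κ × ι => algebraMap K L (ω p.2) * e p.1) =
      Algebra.discr F ω ^ Fintype.card κ * Algebra.norm F (Algebra.discr K e) := by
  have key : Algebra.traceMatrix F (fun p : κ × ι => algebraMap K L (ω p.2) * e p.1) =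
      ((1 : Matrix κ κ F) ⊗ₖ Algebra.traceMatrix F ω) *
        (((Algebra.traceMatrix K e).map (Algebra.leftMulMatrix ω).toRingHom).comp κ κ ι ι F) := by
    ext ⟨b, i⟩ ⟨b', i'⟩
    rw [Algebra.traceMatrix_apply, Algebra.traceForm_apply, Matrix.mul_apply,
      Fintype.sum_prod_type]
    simp only [Matrix.kroneckerMap_apply, Matrix.comp_apply, Matrix.map_apply,
      Algebra.traceMatrix_apply, Algebra.traceForm_apply]
    rw [Finset.sum_eq_single b]
    · simp only [Matrix.one_apply_eq, one_mul]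
      have h1 : algebraMap K L (ω i) * e b * (algebraMap K L (ω i') * e b') =
          (ω i * ω i') • (e b * e b') := by
        rw [Algebra.smul_def, map_mul]
        ring
      rw [h1, ← Algebra.trace_trace (S := K), map_smul, smul_eq_mul]
      set t : K := Algebra.trace K L (e b * e b') with ht
      have h2 : ω i' * t = ∑ c, (Algebra.leftMulMatrix ω t) c i' • ω c := by
        have h3 := ω.sum_repr (t * ω i')
        rw [mul_comm, ← h3]
        refine Finset.sum_congr rfl fun c _ => ?_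
        rw [Algebra.leftMulMatrix_eq_repr_mul]
      rw [mul_assoc, h2, Finset.mul_sum, map_sum]
      refine Finset.sum_congr rfl fun c _ => ?_
      rw [mul_smul_comm, map_smul, smul_eq_mul, mul_comm]
      rfl
    · intro b'' _ hb
      refine Finset.sum_eq_zero fun c _ => ?_
      rw [Matrix.one_apply_ne hb.symm]
      ring
    · intro h
      exact absurd (Finset.mem_univ _) h
  rw [Algebra.discr_def, key, Matrix.det_mul, Matrix.det_kronecker, Matrix.det_one, one_pow,
    one_mul, ← Matrix.det_det, Algebra.norm_eq_matrix_det ω, Algebra.discr_def, Algebra.discr_def]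
  rfl

end Tower


section Lattice

variable {L : Type} [Field L] [NumberField L]

/-- a sublattice of an ideal has a large discriminant -/
theorem disc_lattice (I : Ideal (𝓞 L)) (hI : I ≠ ⊥) {ι : Type} [Fintype ι] [DecidableEq ι]
    (x : ι → 𝓞 L) (hx : ∀ i, x i ∈ I) (hcard : Fintype.card ι = Module.finrank ℚ L)
    (h0 : Algebra.discr ℚ (fun i => (x i : L)) ≠ 0) :
    ((Ideal.absNorm I : ℕ) : ℝ) ^ 2 * |(discr L : ℝ)| ≤
      |((Algebra.discr ℚ (fun i => (x i : L)) : ℚ) : ℝ)| := by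
  classical
  have hc : Fintype.card ι = Fintype.card (Free.ChooseBasisIndex ℤ (𝓞 L)) := by
    rw [hcard, ← RingOfIntegers.rank L]
    exact Module.finrank_eq_card_chooseBasisIndex ℤ (𝓞 L)
  let e : ι ≃ Free.ChooseBasisIndex ℤ (𝓞 L) := Fintype.equivOfCardEq hc
  set bL := RingOfIntegers.basis L with hbL
  let bI := I.selfBasis bL hI
  let x' : Free.ChooseBasisIndex ℤ (𝓞 L) → I := fun k => ⟨x (e.symm k), hx _⟩
  let C : Matrix (Free.ChooseBasisIndex ℤ (𝓞 L)) (Free.ChooseBasisIndex ℤ (𝓞 L)) ℤ :=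
    bI.toMatrix x'
  let Q : Matrix (Free.ChooseBasisIndex ℤ (𝓞 L)) (Free.ChooseBasisIndex ℤ (𝓞 L)) ℤ :=
    bL.toMatrix (fun k => (bI k : 𝓞 L))
  have hx' : ∀ k, (x (e.symm k) : 𝓞 L) = ∑ l, C l k • (bI l : 𝓞 L) := by
    intro k
    have h1 := bI.sum_repr (x' k)
    have h2 := congrArg (Subtype.val) h1
    rw [AddSubmonoidClass.coe_finsetSum] at h2
    exact h2.symm
  have hbI : ∀ l, (bI l : 𝓞 L) = ∑ i, Q i l • bL i := fun l => (bL.sum_repr _).symm
  obtain ⟨P, hP⟩ : ∃ P : Matrix (Free.ChooseBasisIndex ℤ (𝓞 L))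
    (Free.ChooseBasisIndex ℤ (𝓞 L)) ℤ, P = Q * C := ⟨_, rfl⟩
  have hxP : ∀ k, algebraMap (𝓞 L) L (x (e.symm k)) =
      ∑ i, (Int.cast (P i k) : ℚ) • integralBasis L i := by
    intro k
    have h1 : (x (e.symm k) : 𝓞 L) = ∑ i, P i k • bL i := by
      rw [hx' k]
      simp_rw [hbI, Finset.smul_sum]
      rw [Finset.sum_comm]
      refine Finset.sum_congr rfl fun i _ => ?_
      rw [hP, Matrix.mul_apply, Finset.sum_smul]
      refine Finset.sum_congr rfl fun l _ => ?_
      rw [smul_smul, mul_comm]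
    have h2 := congrArg (algebraMap (𝓞 L) L) h1
    rw [map_sum] at h2
    rw [h2]
    refine Finset.sum_congr rfl fun i _ => ?_
    rw [map_zsmul, integralBasis_apply, Int.cast_smul_eq_zsmul]
  have hd : Algebra.discr ℚ (fun i => (x i : L)) = (Int.cast P.det : ℚ) ^ 2 * (discr L : ℚ) := by
    rw [coe_discr]
    have h1 : (fun k => algebraMap (𝓞 L) L (x (e.symm k))) =
        Matrix.vecMul (integralBasis L) ((P.map (Int.cast : ℤ → ℚ)).map (algebraMap ℚ L)) := by
      funext k
      rw [hxP k]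
      show _ = ∑ i, integralBasis L i * (algebraMap ℚ L (Int.cast (P i k) : ℚ))
      refine Finset.sum_congr rfl fun i _ => ?_
      rw [Algebra.smul_def, mul_comm]
    have h2 := Algebra.discr_of_matrix_vecMul (A := ℚ) (integralBasis L)
      (P.map (Int.cast : ℤ → ℚ))
    rw [← h1] at h2
    have h3 : Algebra.discr ℚ (fun i => (x i : L)) =
        Algebra.discr ℚ (fun k => algebraMap (𝓞 L) L (x (e.symm k))) := by
      rw [Algebra.discr_def, Algebra.discr_def,
        ← Matrix.det_submatrix_equiv_self e.symm]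
      rfl
    rw [h3, h2]
    congr 2
    exact (Int.cast_det P).symm
  have hdet : P.det ≠ 0 := by
    intro h
    apply h0
    rw [hd, h]
    simp
  have hQn : Q.det.natAbs = Ideal.absNorm I := by
    have := Ideal.natAbs_det_basis_change bL I bI
    rw [← this]
    rfl
  have h5 : (Ideal.absNorm I) ∣ P.det.natAbs := by
    rw [hP, Matrix.det_mul, Int.natAbs_mul, hQn]
    exact dvd_mul_right _ _
  generalize P.det = D at hd hdet h5
  have h4 : (Ideal.absNorm I : ℝ) ≤ |((D : ℤ) : ℝ)| := by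
    have h6 : Ideal.absNorm I ≤ D.natAbs :=
      Nat.le_of_dvd (Int.natAbs_pos.2 hdet) h5
    have h7 : ((D.natAbs : ℕ) : ℝ) = |((D : ℤ) : ℝ)| := by
      rw [Nat.cast_natAbs, Int.cast_abs]
    rw [← h7]
    exact_mod_cast h6
  rw [hd]
  push_cast
  rw [abs_mul, abs_pow]
  apply mul_le_mul_of_nonneg_right _ (abs_nonneg _)
  exact pow_le_pow_left₀ (Nat.cast_nonneg _) h4 2

end Lattice

theorem prod_pairs {g : ℕ} (M : Fin g → ℝ) :
    ∏ i : Fin g, ∏ k ∈ Finset.Ioi i, (M i * M k) = ∏ i, M i ^ (g - 1) := by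
  simp_rw [Finset.prod_mul_distrib]
  have h1 : ∏ i : Fin g, ∏ k ∈ Finset.Ioi i, M k = ∏ k : Fin g, ∏ i ∈ Finset.Iio k, M k :=
    Finset.prod_comm' (by intro x y; simp)
  rw [h1, ← Finset.prod_mul_distrib]
  refine Finset.prod_congr rfl fun i _ => ?_
  rw [Finset.prod_const, Finset.prod_const, ← pow_add, Fin.card_Ioi, Fin.card_Iio]
  congr 1
  omega

theorem sub_le_max (x y : ℂ) : ‖x - y‖ ≤ 2 * (max ‖x‖ 1 * max ‖y‖ 1) := by
  have h1 := norm_sub_le x y
  have hx : ‖x‖ ≤ max ‖x‖ 1 := le_max_left _ _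
  have hx1 : 1 ≤ max ‖x‖ 1 := le_max_right _ _
  have hy : ‖y‖ ≤ max ‖y‖ 1 := le_max_left _ _
  have hy1 : 1 ≤ max ‖y‖ 1 := le_max_right _ _
  have h2 : max ‖x‖ 1 ≤ max ‖x‖ 1 * max ‖y‖ 1 := le_mul_of_one_le_right (by linarith) hy1
  have h3 : max ‖y‖ 1 ≤ max ‖x‖ 1 * max ‖y‖ 1 := le_mul_of_one_le_left (by linarith) hx1
  linarith

/-- the Vandermonde product -/
theorem vand_le {S : Type} [Fintype S] (z : S → ℂ) {g : ℕ} (e : Fin g ≃ S) :
    ‖∏ i : Fin g, ∏ k ∈ Finset.Ioi i, (z (e k) - z (e i)) ^ 2‖ ≤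
      ∏ s : S, (2 * max ‖z s‖ 1 ^ 2) ^ (g - 1) := by
  rw [norm_prod]
  have h1 : ∏ s : S, (2 * max ‖z s‖ 1 ^ 2) ^ (g - 1) =
      ∏ i : Fin g, (2 * max ‖z (e i)‖ 1 ^ 2) ^ (g - 1) := by
    rw [← e.prod_comp]
  rw [h1, ← prod_pairs]
  refine Finset.prod_le_prod (fun i _ => norm_nonneg _) fun i _ => ?_
  rw [norm_prod]
  refine Finset.prod_le_prod (fun i _ => norm_nonneg _) fun k _ => ?_
  rw [norm_pow]
  have h2 := pow_le_pow_left₀ (norm_nonneg _) (sub_le_max (z (e k)) (z (e i))) 2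
  refine h2.trans (le_of_eq ?_)
  ring

section Ext

variable {K L : Type} [Field K] [NumberField K] [Field L] [NumberField L] [Algebra K L]

set_option backward.isDefEq.respectTransparency false in
/-- the norm of the discriminant of a power basis -/
theorem norm_disc_le (pb : PowerBasis K L) :
    |((Algebra.norm ℚ (Algebra.discr K pb.basis) : ℚ) : ℝ)| ≤
      ∏ σ : L →ₐ[ℚ] ℂ, (2 * max ‖σ pb.gen‖ 1 ^ 2) ^ (pb.dim - 1) := by
  classical
  have hfd : FiniteDimensional K L := Module.Finite.of_restrictScalars_finite ℚ K L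
  have h0 : |((Algebra.norm ℚ (Algebra.discr K pb.basis) : ℚ) : ℝ)| =
      ‖algebraMap ℚ ℂ (Algebra.norm ℚ (Algebra.discr K pb.basis))‖ := by
    rw [eq_ratCast]
    have : ((Algebra.norm ℚ (Algebra.discr K pb.basis) : ℚ) : ℂ) =
      (((Algebra.norm ℚ (Algebra.discr K pb.basis) : ℚ) : ℝ) : ℂ) := by push_cast; rfl
    rw [this, Complex.norm_real, Real.norm_eq_abs]
  rw [h0, Algebra.norm_eq_prod_embeddings ℚ ℂ, norm_prod]
  rw [Fintype.prod_equiv (algHomEquivSigma (A := ℚ) (B := K) (C := L) (D := ℂ))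
    (fun σ => (2 * max ‖σ pb.gen‖ 1 ^ 2) ^ (pb.dim - 1))
    (fun σ => (2 * max ‖σ.2 pb.gen‖ 1 ^ 2) ^ (pb.dim - 1)) (fun σ => rfl),
    ← Finset.univ_sigma_univ, Finset.prod_sigma]
  refine Finset.prod_le_prod (fun i _ => norm_nonneg _) fun τ _ => ?_
  let _ : Algebra K ℂ := τ.toRingHom.toAlgebra
  have hcard : Fintype.card (L →ₐ[K] ℂ) = pb.dim := by
    rw [AlgHom.card K L ℂ, pb.finrank]
  let e : Fin pb.dim ≃ (L →ₐ[K] ℂ) := (Fintype.equivFinOfCardEq hcard).symm
  have h2 := Algebra.discr_powerBasis_eq_prod K ℂ pb e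
  have h3 := vand_le (fun s : L →ₐ[K] ℂ => s pb.gen) e
  rw [← h2] at h3
  exact h3


/-- the scaling of a discriminant -/
theorem discr_smul {ι : Type} [Fintype ι] [DecidableEq ι] (c : K) (f : ι → L) :
    Algebra.discr K (fun i => c • f i) = (c ^ 2) ^ Fintype.card ι * Algebra.discr K f := by
  rw [Algebra.discr_def, Algebra.discr_def, ← Matrix.det_smul]
  congr 1
  ext i j
  rw [Matrix.smul_apply, Algebra.traceMatrix_apply, Algebra.traceMatrix_apply,
    Algebra.traceForm_apply, Algebra.traceForm_apply, smul_mul_smul_comm, map_smul]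
  congr 1
  ring

/-- the products over the embeddings and over the places -/
theorem prod_emb (f : ℝ → ℝ) (x : L) :
    ∏ σ : L →ₐ[ℚ] ℂ, f ‖σ x‖ = ∏ w : InfinitePlace L, f (w x) ^ w.mult := by
  classical
  rw [← Fintype.prod_equiv (RingHom.equivRatAlgHom L ℂ) (fun φ => f ‖φ x‖)
      (fun φ => f ‖φ x‖) fun _ => by simp [RingHom.equivRatAlgHom_apply]]
  rw [← Finset.prod_fiberwise Finset.univ InfinitePlace.mk (fun φ => f ‖φ x‖)]
  have (w : InfinitePlace L) (φ) (hφ : φ ∈ ({φ | InfinitePlace.mk φ = w} : Finset _)) :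
      f ‖φ x‖ = f (w x) := by rw [← (Finset.mem_filter.mp hφ).2, InfinitePlace.apply]
  simp_rw [Finset.prod_congr rfl (this _), Finset.prod_const, InfinitePlace.card_filter_mk_eq]

/-- a denominator whose absolute value is the finite part of the height -/
theorem exists_den (x : L) : ∃ n : ℕ, n ≠ 0 ∧ ∃ a : 𝓞 L, n * x = a ∧
    (Ideal.span {(n : 𝓞 L), a}).absNorm = n ^ (Module.finrank ℚ L - 1) ∧
    Height.mulHeight₁ x = n * ∏ w : InfinitePlace L, max (w x) 1 ^ w.mult := by
  obtain ⟨n, hn, a, ha₁, ha₂⟩ :=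
    NumberField.exists_nat_ne_zero_exists_integer_mul_eq_and_absNorm_span_eq_pow x
  refine ⟨n, hn, a, ha₁, ha₂, ?_⟩
  have hn0 : (n : L) ≠ 0 := by exact_mod_cast hn
  have hnR : (0 : ℝ) < n := by exact_mod_cast Nat.pos_of_ne_zero hn
  have hv (i : Fin 2) : (![a, n] i : L) = ![(a : L), n] i := by fin_cases i <;> rfl
  have hm : 0 < Module.finrank ℚ L := Module.finrank_pos
  have e1 : Height.mulHeight₁ x = Height.mulHeight ![(a : L), n] := by
    rw [← mul_div_cancel_left₀ x hn0, ha₁, Height.mulHeight₁_div_eq_mulHeight]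
  have h1 : ((n : ℝ) ^ (Module.finrank ℚ L - 1)) *
      ∏ᶠ (v : FinitePlace L), ⨆ i, v (![(a : L), n] i) = 1 := by
    simpa [ha₂, hv] using
      NumberField.absNorm_mul_finprod_finitePlace_eq_one (show ![a, n] ≠ 0 by simp [hn])
  have h2 : ∀ w : InfinitePlace L, (⨆ i, w (![(a : L), n] i)) = n * max (w x) 1 := by
    intro w
    have h3 : (⨆ i, w (![(a : L), n] i)) = max (w (a : L)) (w (n : L)) := by
      apply le_antisymm
      · apply ciSup_le
        intro i
        fin_cases i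
        · exact le_max_left _ _
        · exact le_max_right _ _
      · apply max_le
        · exact le_ciSup (f := fun i => w (![(a : L), n] i)) (Set.finite_range _).bddAbove 0
        · exact le_ciSup (f := fun i => w (![(a : L), n] i)) (Set.finite_range _).bddAbove 1
    have h4 : w (n : L) = n := by simp
    rw [h3, ← ha₁, map_mul, h4, mul_max_of_nonneg _ _ hnR.le, mul_one]
  rw [e1, NumberField.mulHeight_eq (by simp [hn])]
  simp_rw [h2, mul_pow, Finset.prod_mul_distrib, Finset.prod_pow_eq_pow_sum]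
  have h5 : ∑ w : InfinitePlace L, w.mult = Module.finrank ℚ L := InfinitePlace.sum_mult_eq
  rw [h5]
  have h6 : (n : ℝ) ^ Module.finrank ℚ L = n * (n : ℝ) ^ (Module.finrank ℚ L - 1) :=
    (mul_pow_sub_one hm.ne' _).symm
  rw [h6]
  linear_combination ((n : ℝ) * ∏ w : InfinitePlace L, max (w x) 1 ^ w.mult) * h1

/-- **The relative discriminant of an extension generated by `j`**, multiplicative form. -/
theorem disc_le_of_powerBasis (pb : PowerBasis K L) :
    |(discr L : ℝ)| ≤ |(discr K : ℝ)| ^ Module.finrank K L *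
      (2 ^ Module.finrank ℚ L * Height.mulHeight₁ pb.gen ^ 2) ^ (Module.finrank K L - 1) := by
  classical
  have hfd : FiniteDimensional K L := Module.Finite.of_restrictScalars_finite ℚ K L
  obtain ⟨n, hn, a, ha, hN, hH⟩ := exists_den pb.gen
  set g := pb.dim with hg
  have hgf : Module.finrank K L = g := pb.finrank
  set m := Module.finrank ℚ L with hm
  set d := Module.finrank ℚ K with hd
  have hm0 : 0 < m := Module.finrank_pos
  have hg0 : 0 < g := by rw [← hgf]; exact Module.finrank_pos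
  have hdm : d * g = m := by
    rw [← hgf]
    exact Module.finrank_mul_finrank ℚ K L
  have hnR : (0 : ℝ) < n := by exact_mod_cast Nat.pos_of_ne_zero hn
  set I : Ideal (𝓞 L) := Ideal.span {(n : 𝓞 L), a} ^ (g - 1) with hI
  have hI0 : I ≠ ⊥ := by
    rw [hI]
    apply pow_ne_zero
    intro h
    have h1 : (n : 𝓞 L) ∈ Ideal.span {(n : 𝓞 L), a} := Ideal.subset_span (by simp)
    rw [h] at h1
    have h2 : (n : 𝓞 L) = 0 := h1
    exact hn (by exact_mod_cast h2)
  set x : Fin g × Free.ChooseBasisIndex ℤ (𝓞 K) → 𝓞 L := fun p =>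
    algebraMap (𝓞 K) (𝓞 L) (RingOfIntegers.basis K p.2) *
      ((n : 𝓞 L) ^ (g - 1 - (p.1 : ℕ)) * a ^ (p.1 : ℕ)) with hx
  have hxI : ∀ p, x p ∈ I := by
    intro p
    apply Ideal.mul_mem_left
    have h1 : g - 1 = (g - 1 - (p.1 : ℕ)) + (p.1 : ℕ) := by
      have := p.1.isLt
      omega
    rw [hI]
    conv_lhs => rw [h1]
    rw [pow_add]
    apply Ideal.mul_mem_mul
    · exact Ideal.pow_mem_pow (Ideal.subset_span (by simp)) _
    · exact Ideal.pow_mem_pow (Ideal.subset_span (by simp)) _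
  have hxL : (fun p => (x p : L)) = fun p : Fin g × Free.ChooseBasisIndex ℤ (𝓞 K) =>
      algebraMap K L (integralBasis K p.2) * (((n : K) ^ (g - 1)) • pb.basis p.1) := by
    funext p
    have h1 : g - 1 = (g - 1 - (p.1 : ℕ)) + (p.1 : ℕ) := by
      have := p.1.isLt
      omega
    have h2 : (x p : L) = algebraMap K L (integralBasis K p.2) *
        ((n : L) ^ (g - 1 - (p.1 : ℕ)) * (a : L) ^ (p.1 : ℕ)) := by
      rw [hx]
      simp only [map_mul, map_pow, map_natCast]
      rw [integralBasis_apply]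
      rfl
    rw [h2, ← ha, pb.coe_basis, Algebra.smul_def, map_pow, map_natCast]
    congr 1
    conv_rhs => rw [h1]
    rw [pow_add, mul_pow]
    ring
  have hdisc : Algebra.discr ℚ (fun p => (x p : L)) = (discr K : ℚ) ^ g *
      (((n : ℚ) ^ (g - 1)) ^ 2) ^ m * Algebra.norm ℚ (Algebra.discr K pb.basis) := by
    rw [hxL, discr_tower (integralBasis K) (fun b => ((n : K) ^ (g - 1)) • pb.basis b),
      discr_smul, map_mul, ← coe_discr, Fintype.card_fin]
    have h1 : (((n : K) ^ (g - 1)) ^ 2) ^ g = algebraMap ℚ K ((((n : ℚ) ^ (g - 1)) ^ 2) ^ g) := by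
      simp
    rw [h1, Algebra.norm_algebraMap, ← hd, ← pow_mul (((n : ℚ) ^ (g - 1)) ^ 2) g d, mul_comm g d,
      hdm]
    ring
  have hne : Algebra.discr ℚ (fun p => (x p : L)) ≠ 0 := by
    rw [hdisc]
    have h1 : Algebra.discr K pb.basis ≠ 0 := Algebra.discr_not_zero_of_basis K pb.basis
    have h2 : Algebra.norm ℚ (Algebra.discr K pb.basis) ≠ 0 := Algebra.norm_ne_zero_iff.2 h1
    have h3 : (n : ℚ) ≠ 0 := by exact_mod_cast hn
    have h4 : (discr K : ℚ) ≠ 0 := by exact_mod_cast discr_ne_zero K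
    positivity
  have hcard : Fintype.card (Fin g × Free.ChooseBasisIndex ℤ (𝓞 K)) = m := by
    rw [Fintype.card_prod, Fintype.card_fin, ← Module.finrank_eq_card_chooseBasisIndex ℤ (𝓞 K),
      RingOfIntegers.rank K, mul_comm, hdm]
  have h1 := disc_lattice I hI0 x hxI hcard hne
  have hNI : ((Ideal.absNorm I : ℕ) : ℝ) = ((n : ℝ) ^ (m - 1)) ^ (g - 1) := by
    rw [hI, map_pow, hN]
    push_cast
    rfl
  have h2 := norm_disc_le (K := K) pb
  have h3 : ∏ σ : L →ₐ[ℚ] ℂ, (2 * max ‖σ pb.gen‖ 1 ^ 2) ^ (g - 1) =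
      (2 ^ m * (∏ w : InfinitePlace L, max (w pb.gen) 1 ^ w.mult) ^ 2) ^ (g - 1) := by
    rw [Finset.prod_pow]
    congr 1
    rw [prod_emb (fun t => 2 * max t 1 ^ 2) pb.gen]
    simp_rw [mul_pow, Finset.prod_mul_distrib, Finset.prod_pow_eq_pow_sum]
    rw [InfinitePlace.sum_mult_eq]
    congr 1
    rw [← Finset.prod_pow]
    refine Finset.prod_congr rfl fun w _ => ?_
    ring
  replace h2 := h2.trans_eq h3
  set A : ℝ := ∏ w : InfinitePlace L, max (w pb.gen) 1 ^ w.mult with hA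
  rw [hNI, hdisc] at h1
  push_cast at h1
  rw [abs_mul, abs_mul, abs_pow, abs_of_pos (show (0 : ℝ) < ((((n : ℝ) ^ (g - 1)) ^ 2) ^ m) by
    positivity)] at h1
  have h4 : ((n : ℝ) ^ (g - 1)) ^ 2 ^ 1 = ((n : ℝ) ^ (g - 1)) ^ 2 := by ring
  have h5 : (((n : ℝ) ^ (g - 1)) ^ 2) ^ m =
      (((n : ℝ) ^ (m - 1)) ^ (g - 1)) ^ 2 * ((n : ℝ) ^ 2) ^ (g - 1) := by
    obtain ⟨k, hk⟩ := Nat.exists_eq_succ_of_ne_zero hm0.ne'
    rw [hk]
    simp only [Nat.succ_eq_add_one, Nat.add_sub_cancel]
    ring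
  rw [h5] at h1
  have hpos : (0 : ℝ) < (((n : ℝ) ^ (m - 1)) ^ (g - 1)) ^ 2 := by positivity
  have hK0 : (0 : ℝ) ≤ |(discr K : ℝ)| ^ g := by positivity
  rw [hgf, hH]
  have h6 : (((n : ℝ) ^ (m - 1)) ^ (g - 1)) ^ 2 * |(discr L : ℝ)| ≤
      (((n : ℝ) ^ (m - 1)) ^ (g - 1)) ^ 2 *
        (|(discr K : ℝ)| ^ g * (2 ^ m * (n * A) ^ 2) ^ (g - 1)) := by
    refine h1.trans ?_
    have h7 : |(discr K : ℝ)| ^ g *
        ((((n : ℝ) ^ (m - 1)) ^ (g - 1)) ^ 2 * ((n : ℝ) ^ 2) ^ (g - 1)) *
        |((Algebra.norm ℚ (Algebra.discr K pb.basis) : ℚ) : ℝ)| ≤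
        |(discr K : ℝ)| ^ g *
        ((((n : ℝ) ^ (m - 1)) ^ (g - 1)) ^ 2 * ((n : ℝ) ^ 2) ^ (g - 1)) *
        (2 ^ m * A ^ 2) ^ (g - 1) :=
      mul_le_mul_of_nonneg_left h2 (by positivity)
    refine h7.trans (le_of_eq ?_)
    have h8 : (2 ^ m * ((n : ℝ) * A) ^ 2) ^ (g - 1) =
        ((n : ℝ) ^ 2) ^ (g - 1) * (2 ^ m * A ^ 2) ^ (g - 1) := by
      rw [← mul_pow]
      congr 1
      ring
    rw [h8]
    ring
  exact le_of_mul_le_mul_left h6 hpos

/-- a power basis from a generator -/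
theorem exists_powerBasis {j : L} (hj : IntermediateField.adjoin K {j} = ⊤) :
    ∃ pb : PowerBasis K L, pb.gen = j := by
  have hfd : FiniteDimensional K L := Module.Finite.of_restrictScalars_finite ℚ K L
  have hint : IsIntegral K j := IsIntegral.of_finite K j
  refine ⟨(IntermediateField.adjoin.powerBasis hint).map
    ((IntermediateField.equivOfEq hj).trans IntermediateField.topEquiv), ?_⟩
  simp only [PowerBasis.map_gen, IntermediateField.adjoin.powerBasis_gen]
  rfl

/-- **The relative discriminant of `L = K(j)` and the height of `j`** -/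
theorem log_disc_le {j : L} (hj : IntermediateField.adjoin K {j} = ⊤) :
    Real.log |(discr L : ℝ)| - Module.finrank K L * Real.log |(discr K : ℝ)| ≤
      (Module.finrank K L - 1) *
        (Module.finrank ℚ L * Real.log 2 + 2 * Height.logHeight₁ j) := by
  have hfd : FiniteDimensional K L := Module.Finite.of_restrictScalars_finite ℚ K L
  obtain ⟨pb, rfl⟩ := exists_powerBasis hj
  have h1 := disc_le_of_powerBasis pb
  have hg0 : 1 ≤ Module.finrank K L := Module.finrank_pos
  have hK : (0 : ℝ) < |(discr K : ℝ)| := abs_pos.2 (by exact_mod_cast discr_ne_zero K)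
  have hL : (0 : ℝ) < |(discr L : ℝ)| := abs_pos.2 (by exact_mod_cast discr_ne_zero L)
  have hH : (0 : ℝ) < Height.mulHeight₁ pb.gen := by
    have := Height.one_le_mulHeight₁ pb.gen
    linarith
  have h2 := Real.log_le_log hL h1
  rw [Real.log_mul (by positivity) (by positivity), Real.log_pow, Real.log_pow,
    Real.log_mul (by positivity) (by positivity), Real.log_pow, Real.log_pow] at h2
  rw [Height.logHeight₁_eq_log_mulHeight₁]
  push_cast [Nat.cast_sub hg0] at h2
  linarith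

end Ext

end Pool.Agent.R407
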