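import Mathlib
import Pool.Agent.Y733.FF.Str
import Pool.Agent.R407.RelDisc
import Pool.Agent.R407.Gram

/-!
# The lower bound of Lang and Silverman for Weil restrictions

The bound with the unstable Faltings height of the Weil restrictions to all subfields `K` with
`L = K(j)`.
-/

set_option autoImplicit false
set_option linter.unusedSectionVars false

namespace Pool.Agent.R407

open NumberField IsDedekindDomain Pool.Agent.H691R3 Pool.Agent.W223.AK Pool.Agent.Y733.LS
  Pool.Agent.TH942 Pool.Agent.TH910.LS Pool.Agent.Y733.FF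
open Pool.Agent.TH876.FH (GoodAt IsPeriod arch jInv Hj_height Hj_norm)

open Classical in
/-- **the lower bound with the relative Faltings height of the Weil restrictions** -/
theorem wr_core : ∃ c₀ : ℝ, 0 < c₀ ∧ ∀ (L : Type) [Field L] [NumberField L] (c : ℝ) (j : L),
    0 ≤ c → LSP c j → ∀ (K : Type) [Field K] [NumberField K] [Algebra K L],
    IntermediateField.adjoin K {j} = ⊤ →
    ∀ (a b : L) (τ : InfinitePlace L → UpperHalfPlane), dl a b ≠ 0 → jj a b = j →
    IsPeriod (jj a b) τ → ∀ (g : ℕ) (M : Matrix (Fin g) (Fin g) ℤ),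
    (M.map (Int.cast : ℤ → ℝ)).PosDef → ∀ P : Fin g → SPt a b, P ≠ 0 →
      c₀ * c * (discSum (sw a b) + ∑ w : InfinitePlace L, (w.mult : ℝ) * arch (τ w) +
        6 * (Real.log |(discr L : ℝ)| - Module.finrank K L * Real.log |(discr K : ℝ)|)) ≤
        Module.finrank K L * chatM M P ∧ c₀ * c * Module.finrank ℚ L ≤ chatM M P := by
  obtain ⟨C, hC, h⟩ := fal_le
  refine ⟨1 / (28 + C), by positivity, ?_⟩
  intro L _ _ c j hc hj K _ _ _ hK a b τ hD hab hτ g M hM P hP
  have hfd : FiniteDimensional K L := Module.Finite.of_restrictScalars_finite ℚ K L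
  have hn : (0 : ℝ) < Module.finrank ℚ L := by exact_mod_cast Module.finrank_pos
  have hG1 : (1 : ℝ) ≤ Module.finrank K L := by
    exact_mod_cast (Module.finrank_pos : 0 < Module.finrank K L)
  obtain ⟨S, hS, h1⟩ := h L a b τ hD hτ
  have h2 := hj a b hD hab S hS g M hM P hP
  have h2' := log_disc_le hK
  have e3 : Height.logHeight₁ j = ht j := by rw [logHeight_eq, ht_eq_Sa]
  rw [e3, ← hab] at h2'
  rw [← hab] at h2
  have h3 : 0 ≤ ht (jj a b) := ht_nonneg _
  have h4 : 0 ≤ ∑ v ∈ S, Real.log (Nv v) := Finset.sum_nonneg fun v _ => (log_Nv_pos v).le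
  have h10 : 0 < 28 + C := by positivity
  have hl2 : Real.log 2 ≤ 1 := by
    have := Real.log_two_lt_d9
    linarith
  have hl2' : 0 ≤ Real.log 2 := Real.log_nonneg (by norm_num)
  set G : ℝ := (Module.finrank K L : ℝ) with hG
  set n : ℝ := (Module.finrank ℚ L : ℝ) with hnn
  set H : ℝ := ht (jj a b) with hH
  set T : ℝ := ∑ v ∈ S, Real.log (Nv v) with hT
  have hX : 0 ≤ n + H + T := by positivity
  constructor
  · have h5 : G * (c * (n + H + T)) ≤ G * chatM M P :=
      mul_le_mul_of_nonneg_left h2 (by linarith)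
    refine le_trans ?_ h5
    have e : 1 / (28 + C) * c = c / (28 + C) := by ring
    rw [e, div_mul_eq_mul_div, div_le_iff₀ h10]
    have h6 : discSum (sw a b) + ∑ w : InfinitePlace L, (w.mult : ℝ) * arch (τ w) +
        6 * (Real.log |(discr L : ℝ)| - G * Real.log |(discr K : ℝ)|) ≤
        G * ((28 + C) * (n + H + T)) := by
      have h7 : (G - 1) * (n * Real.log 2 + 2 * H) ≤ G * (n + 2 * H) := by
        have h8 : n * Real.log 2 ≤ n := by nlinarith
        have h9 : (G - 1) * (n * Real.log 2 + 2 * H) ≤ (G - 1) * (n + 2 * H) :=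
          mul_le_mul_of_nonneg_left (by linarith) (by linarith)
        have h11 : 0 ≤ n + 2 * H := by positivity
        nlinarith
      have h12 : H + 10 * T + C * n ≤ G * (H + 10 * T + C * n) :=
        le_mul_of_one_le_left (by positivity) hG1
      have h13 : G * (H + 10 * T + C * n) + 6 * (G * (n + 2 * H)) ≤
          G * ((28 + C) * (n + H + T)) := by
        have h14 : H + 10 * T + C * n + 6 * (n + 2 * H) ≤ (28 + C) * (n + H + T) := by
          nlinarith [mul_nonneg hC.le h3, mul_nonneg hC.le h4]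
        nlinarith
      linarith
    have h15 := mul_le_mul_of_nonneg_left h6 hc
    linarith
  · refine le_trans ?_ h2
    have e : 1 / (28 + C) * c = c / (28 + C) := by ring
    rw [e, div_mul_eq_mul_div, div_le_iff₀ h10, mul_assoc]
    apply mul_le_mul_of_nonneg_left _ hc
    nlinarith

end Pool.Agent.R407
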