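import Mathlib
import Pool.Agent.TH951.LS.Rel
import Pool.Agent.TH910.LS.Main
import Pool.Agent.R407.WR

/-!
# Nearly `S`-integral invariants: the lower bound for the canonical height and the Faltings height of
# the Weil restrictions
-/

set_option autoImplicit false
set_option linter.unusedSectionVars false

namespace Pool.Agent.R407

open NumberField IsDedekindDomain Pool.Agent.H691R3 Pool.Agent.W223.AK Pool.Agent.Y733.LS
  Pool.Agent.TH942 Pool.Agent.TH910.LS Pool.Agent.Y733.FF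
open Pool.Agent.TH876.FH (GoodAt IsPeriod arch jInv Hj_height Hj_norm)

/-- the relative Faltings height of all curves, with the additive primes -/
theorem fal_add : ∃ C : ℝ, 0 < C ∧ ∀ (K : Type) [Field K] [NumberField K] (a b : K)
    (τ : InfinitePlace K → UpperHalfPlane), dl a b ≠ 0 → IsPeriod (jj a b) τ →
    ∃ S : Finset (Pr K), (∀ v ∈ S, ¬ SemiAt v (sw a b)) ∧
    discSum (sw a b) + ∑ w : InfinitePlace K, (w.mult : ℝ) * arch (τ w) ≤
      ht (jj a b) + 10 * ∑ v ∈ S, Real.log (Nv v) + C * Module.finrank ℚ K := by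
  classical
  obtain ⟨c, hc0, hc⟩ := arch_le
  have l6 : 0 < Real.log 6 := Real.log_pos (by norm_num)
  refine ⟨c + 22 * Real.log 6, by positivity, ?_⟩
  intro K _ _ a b τ hD hτ
  have hE : (sw a b).Δ ≠ 0 := by
    rw [Pool.Agent.Y733.FF.sw_Δ]
    exact mul_ne_zero (by norm_num) hD
  have h1 := disc_sum0 (sw a b) hE
  rw [sw_j a b hD] at h1
  have h2 := hc K _ τ hτ
  have h4 : ht (jj a b) =
      ∑ w : InfinitePlace K, (w.mult : ℝ) * Real.log (max (w (jj a b)) 1) +
      ∑ᶠ v : HeightOneSpectrum (𝓞 K), Real.log (max (FinitePlace.mk v (jj a b)) 1) := by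
    rw [← Hj_height, logHeight_eq, ht_eq_Sa]
  have h5 : ∑ᶠ v : Pr K, Real.log (max (fv v (jj a b)) 1) =
    ∑ᶠ v : HeightOneSpectrum (𝓞 K), Real.log (max (FinitePlace.mk v (jj a b)) 1) := rfl
  rw [h5] at h1
  have hfin := fin_a (sw a b) hE
  have h6 : ∑ᶠ v : Pr K, aw v (sw a b) = ∑ v ∈ hfin.toFinset, Real.log (Nv v) := by
    rw [finsum_eq_sum_of_support_subset (s := hfin.toFinset) _ (by
      intro v hv
      rw [Function.mem_support] at hv
      rw [Finset.mem_coe, Set.Finite.mem_toFinset]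
      by_contra hcon
      apply hv
      unfold aw
      exact if_neg hcon)]
    refine Finset.sum_congr rfl fun v hv => ?_
    rw [Set.Finite.mem_toFinset] at hv
    unfold aw
    exact if_pos hv
  refine ⟨hfin.toFinset, fun v hv => ?_, ?_⟩
  · rw [Set.Finite.mem_toFinset] at hv
    exact hv.1
  · rw [← h6]
    linarith

/-- the relative Faltings height of the Weil restrictions, with the additive primes -/
theorem wr_add : ∃ C : ℝ, 0 < C ∧ ∀ (L : Type) [Field L] [NumberField L] (K : Type) [Field K]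
    [NumberField K] [Algebra K L] (a b : L) (τ : InfinitePlace L → UpperHalfPlane), dl a b ≠ 0 →
    IntermediateField.adjoin K {jj a b} = ⊤ → IsPeriod (jj a b) τ →
    ∃ S : Finset (Pr L), (∀ v ∈ S, ¬ SemiAt v (sw a b)) ∧
    discSum (sw a b) + ∑ w : InfinitePlace L, (w.mult : ℝ) * arch (τ w) +
      6 * (Real.log |(discr L : ℝ)| - Module.finrank K L * Real.log |(discr K : ℝ)|) ≤
      C * Module.finrank K L * (Module.finrank ℚ L + ht (jj a b) + ∑ v ∈ S, Real.log (Nv v)) := by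
  obtain ⟨C, hC, h⟩ := fal_add
  refine ⟨28 + C, by positivity, ?_⟩
  intro L _ _ K _ _ _ a b τ hD hK hτ
  have hfd : FiniteDimensional K L := Module.Finite.of_restrictScalars_finite ℚ K L
  have hn : (0 : ℝ) < Module.finrank ℚ L := by exact_mod_cast Module.finrank_pos
  have hG1 : (1 : ℝ) ≤ Module.finrank K L := by
    exact_mod_cast (Module.finrank_pos : 0 < Module.finrank K L)
  obtain ⟨S, hS, h1⟩ := h L a b τ hD hτ
  refine ⟨S, hS, ?_⟩
  have h2' := log_disc_le hK
  have e3 : Height.logHeight₁ (jj a b) = ht (jj a b) := by rw [logHeight_eq, ht_eq_Sa]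
  rw [e3] at h2'
  have h3 : 0 ≤ ht (jj a b) := ht_nonneg _
  have h4 : 0 ≤ ∑ v ∈ S, Real.log (Nv v) := Finset.sum_nonneg fun v _ => (log_Nv_pos v).le
  have hl2 : Real.log 2 ≤ 1 := by
    have := Real.log_two_lt_d9
    linarith
  have hl2' : 0 ≤ Real.log 2 := Real.log_nonneg (by norm_num)
  set G : ℝ := (Module.finrank K L : ℝ) with hG
  set n : ℝ := (Module.finrank ℚ L : ℝ) with hnn
  set H : ℝ := ht (jj a b) with hH
  set T : ℝ := ∑ v ∈ S, Real.log (Nv v) with hT
  have hX : 0 ≤ n + H + T := by positivity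
  have h7 : (G - 1) * (n * Real.log 2 + 2 * H) ≤ G * (n + 2 * H) := by
    have h8 : n * Real.log 2 ≤ n := by nlinarith
    have h9 : (G - 1) * (n * Real.log 2 + 2 * H) ≤ (G - 1) * (n + 2 * H) :=
      mul_le_mul_of_nonneg_left (by linarith) (by linarith)
    have h11 : 0 ≤ n + 2 * H := by positivity
    nlinarith
  have h12 : H + 10 * T + C * n ≤ G * (H + 10 * T + C * n) :=
    le_mul_of_one_le_left (by positivity) hG1
  have h13 : G * (H + 10 * T + C * n) + 6 * (G * (n + 2 * H)) ≤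
      G * ((28 + C) * (n + H + T)) := by
    have h14 : H + 10 * T + C * n + 6 * (n + 2 * H) ≤ (28 + C) * (n + H + T) := by
      nlinarith [mul_nonneg hC.le h3, mul_nonneg hC.le h4]
    nlinarith
  linarith

/-- `j` is integral outside `M` up to the proportion `δ` -/
def NearInt {K : Type} [Field K] [NumberField K] (δ : ℝ) (M : ℕ) (j : K) : Prop :=
  ∃ b k : ℕ, 0 < b ∧ Real.log b ≤ δ * (Height.logHeight₁ j / Module.finrank ℚ K) ∧
    IsIntegral ℤ ((b : K) * (M : K) ^ k * j)

/-- one point on a curve with nearly `S`-integral invariant -/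
theorem ni_point (D : ℕ) : ∃ (N : ℕ) (c δ : ℝ), 0 < c ∧ 0 < δ ∧ ∀ M : ℕ, M ≠ 0 → ∃ A : ℝ, 1 ≤ A ∧
    ∀ (L : Type) [Field L] [NumberField L] [DecidableEq L], Module.finrank ℚ L ≤ D →
    ∀ a b : L, dl a b ≠ 0 → NearInt δ M (jj a b) →
    A < Height.logHeight₁ (jj a b) / Module.finrank ℚ L →
    ∀ S : Finset (Pr L), (∀ v ∈ S, ¬ SemiAt v (sw a b)) →
    ∀ Q : SPt a b, (∃ n : ℕ, 0 < n ∧ n ≤ N ∧ n • Q = 0) ∨
      c * (Module.finrank ℚ L + ht (jj a b) + ∑ v ∈ S, Real.log (Nv v)) ≤ chat Q := by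
  obtain ⟨N, c, δ, hc, hδ, hfam⟩ := TH951.LS.family.{0} D
  refine ⟨2 * N + 1, c / 2 / 4 ^ N, δ, by positivity, hδ, fun M hM => ?_⟩
  obtain ⟨A, hA, hfam⟩ := hfam M hM
  refine ⟨max A 1, le_max_right _ _, ?_⟩
  intro L _ _ _ hLD a b hD hj hAj S hS Q
  have hdec : DecidableEq (FinitePlace L) := Classical.decEq _
  have hn : (0 : ℝ) < Module.finrank ℚ L := by exact_mod_cast Module.finrank_pos
  have hell : (sw a b).IsElliptic := Pool.Agent.TH942.sw_ell hD
  have hjj : (sw a b).j = jj a b := Pool.Agent.TH910.LS.jinv_eq a b hell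
  obtain ⟨b', k, hb, hbδ, hint⟩ := hj
  have e3 : Height.logHeight₁ (jj a b) = ht (jj a b) := by rw [logHeight_eq, ht_eq_Sa]
  have hlim : ∀ Q : SPt a b, Filter.Tendsto (fun n : ℕ =>
      Height.logHeight ((2 ^ n • Q).xRep) / (4 ^ n * Module.finrank ℚ L)) Filter.atTop
      (nhds (chat Q / Module.finrank ℚ L)) := by
    intro Q
    have h := ((chat_spec hD).1 Q).div_const (Module.finrank ℚ L : ℝ)
    refine h.congr fun n => ?_
    rw [div_div]
    rfl
  set F : Finset (FinitePlace L) := S.image FinitePlace.mk with hF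
  have hinj : Set.InjOn (FinitePlace.mk (K := L)) (S : Set (Pr L)) := by
    intro v _ w _ h
    have := congrArg FinitePlace.maximalIdeal h
    rwa [FinitePlace.maximalIdeal_mk, FinitePlace.maximalIdeal_mk] at this
  have hFsum : ∑ v ∈ F, Real.log (TH951.NF.Nm v) = ∑ v ∈ S, Real.log (Nv v) := by
    rw [hF, Finset.sum_image hinj]
    refine Finset.sum_congr rfl fun v _ => ?_
    unfold TH951.NF.Nm
    rw [FinitePlace.maximalIdeal_mk]
    rfl
  have hFbad : ∀ v ∈ F, ¬ TH951.LS.GoodRed v.val (sw a b) := by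
    intro v hv
    rw [hF, Finset.mem_image] at hv
    obtain ⟨w, hw, rfl⟩ := hv
    intro hg
    apply hS w hw
    obtain ⟨C, h1, h2, h3, h4, h6, h7⟩ := hg
    exact ⟨C, (fv_le_one_iff w).1 h1, (fv_le_one_iff w).1 h2, (fv_le_one_iff w).1 h3,
      (fv_le_one_iff w).1 h4, (fv_le_one_iff w).1 h6, Or.inl ((fv_one_iff w).1 h7)⟩
  have hH : 0 < Height.logHeight₁ (jj a b) / Module.finrank ℚ L :=
    lt_of_le_of_lt (le_trans zero_le_one (le_max_right A 1)) hAj
  have hT0 : 0 ≤ ∑ v ∈ S, Real.log (Nv v) := Finset.sum_nonneg fun v _ => (log_Nv_pos v).le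
  have hC : 0 < c * (Height.logHeight₁ (jj a b) / Module.finrank ℚ L +
      (∑ v ∈ F, Real.log (TH951.NF.Nm v)) / Module.finrank ℚ L) := by
    rw [hFsum]
    positivity
  rw [← hjj] at hint hbδ hAj hC
  have h := TH951.LS.of_family (sw a b) hlim hC (fun Q hQ =>
      hfam L hLD (sw a b) b' k hb hint hbδ (lt_of_le_of_lt (le_max_left _ _) hAj) F hFbad _
        hlim Q hQ) Q
  rcases h with h | h
  · exact Or.inl h
  · right
    rw [hjj, hFsum, e3, ← add_div, le_div_iff₀ hn] at h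
    rw [hjj, e3] at hAj
    have h9 : 1 < ht (jj a b) / Module.finrank ℚ L := lt_of_le_of_lt (le_max_right _ _) hAj
    rw [lt_div_iff₀ hn, one_mul] at h9
    refine le_trans ?_ h
    have h10 : c * ((ht (jj a b) + ∑ v ∈ S, Real.log (Nv v)) / Module.finrank ℚ L) / 4 ^ N *
        Module.finrank ℚ L = c / 4 ^ N * (ht (jj a b) + ∑ v ∈ S, Real.log (Nv v)) := by
      field_simp
    rw [h10]
    have h11 : c / 2 / 4 ^ N * (Module.finrank ℚ L + ht (jj a b) + ∑ v ∈ S, Real.log (Nv v)) =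
        c / 4 ^ N * ((Module.finrank ℚ L + ht (jj a b) + ∑ v ∈ S, Real.log (Nv v)) / 2) := by
      ring
    rw [h11]
    apply mul_le_mul_of_nonneg_left _ (by positivity)
    linarith

end Pool.Agent.R407
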