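import Mathlib
import Pool.Agent.R407.NI

/-!
# Nearly `S`-integral invariants: Weil restrictions
-/

set_option autoImplicit false
set_option linter.unusedSectionVars false

namespace Pool.Agent.R407

open NumberField IsDedekindDomain Pool.Agent.H691R3 Pool.Agent.W223.AK Pool.Agent.Y733.LS
  Pool.Agent.TH942 Pool.Agent.TH910.LS Pool.Agent.Y733.FF
open Pool.Agent.TH876.FH (GoodAt IsPeriod arch jInv Hj_height Hj_norm)

/-- the height of a product -/
theorem sum_comb {s : ℕ} (hs : 0 < s) {c : ℝ} (hc : 0 ≤ c) (m : Fin s → ℕ) (hm : ∀ i, 1 ≤ m i)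
    (h x : Fin s → ℝ) (hx : ∀ i, c / (m i : ℝ) * max (h i) 1 ≤ x i) :
    c / (∑ i, m i : ℕ) * max (∑ i, h i) 1 ≤ ∑ i, x i := by
  set G : ℕ := ∑ i, m i with hG
  have hGi : ∀ i, m i ≤ G := fun i =>
    Finset.single_le_sum (f := m) (fun _ _ => Nat.zero_le _) (Finset.mem_univ i)
  have hG1 : 1 ≤ G := (hm ⟨0, hs⟩).trans (hGi ⟨0, hs⟩)
  have hG0 : (0 : ℝ) < G := by exact_mod_cast hG1
  have h2 : max (∑ i, h i) 1 ≤ ∑ i, max (h i) 1 := by
    apply max_le
    · exact Finset.sum_le_sum fun i _ => le_max_left _ _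
    · refine le_trans ?_ (Finset.single_le_sum (f := fun i => max (h i) 1)
        (fun i _ => le_trans zero_le_one (le_max_right _ _)) (Finset.mem_univ ⟨0, hs⟩))
      exact le_max_right _ _
  calc c / G * max (∑ i, h i) 1
      ≤ c / G * ∑ i, max (h i) 1 := mul_le_mul_of_nonneg_left h2 (by positivity)
    _ = ∑ i, c / G * max (h i) 1 := by rw [Finset.mul_sum]
    _ ≤ ∑ i, x i := by
        refine Finset.sum_le_sum fun i _ => ?_
        refine le_trans ?_ (hx i)
        apply mul_le_mul_of_nonneg_right _ (le_trans zero_le_one (le_max_right _ _))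
        apply div_le_div_of_nonneg_left hc
        · have : (1 : ℝ) ≤ (m i : ℝ) := by exact_mod_cast hm i
          linarith
        · exact_mod_cast hGi i

open Classical in
/-- points of a power of a curve with nearly `S`-integral invariant, and the Weil restrictions -/
theorem ni_core (D : ℕ) : ∃ (N : ℕ) (c δ : ℝ), 0 < c ∧ 0 < δ ∧ ∀ M : ℕ, M ≠ 0 → ∃ A : ℝ,
    ∀ (L : Type) [Field L] [NumberField L], Module.finrank ℚ L ≤ D →
    ∀ (K : Type) [Field K] [NumberField K] [Algebra K L] (a b : L)
      (τ : InfinitePlace L → UpperHalfPlane), dl a b ≠ 0 →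
    IntermediateField.adjoin K {jj a b} = ⊤ → IsPeriod (jj a b) τ → NearInt δ M (jj a b) →
    A < Height.logHeight₁ (jj a b) / Module.finrank ℚ L →
    ∀ (g : ℕ) (X : Matrix (Fin g) (Fin g) ℤ), (X.map (Int.cast : ℤ → ℝ)).PosDef →
    ∀ P : Fin g → SPt a b, (0 < addOrderOf P ∧ addOrderOf P ≤ N) ∨ (¬ IsOfFinAddOrder P ∧
      c * (discSum (sw a b) + ∑ w : InfinitePlace L, (w.mult : ℝ) * arch (τ w) +
        6 * (Real.log |(discr L : ℝ)| - Module.finrank K L * Real.log |(discr K : ℝ)|)) ≤
        Module.finrank K L * chatM X P ∧ c * Module.finrank ℚ L ≤ chatM X P) := by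
  obtain ⟨N, c, δ, hc, hδ, hni⟩ := ni_point D
  obtain ⟨C, hC, hwr⟩ := wr_add
  refine ⟨N.factorial, min c (c / C), δ, by positivity, hδ, fun M hM => ?_⟩
  obtain ⟨A, hA, hni⟩ := hni M hM
  refine ⟨A, ?_⟩
  intro L _ _ hLD K _ _ _ a b τ hD hK hτ hj hAj g X hX P
  have hfd : FiniteDimensional K L := Module.Finite.of_restrictScalars_finite ℚ K L
  have hn : (0 : ℝ) < Module.finrank ℚ L := by exact_mod_cast Module.finrank_pos
  have hG0 : (0 : ℝ) < Module.finrank K L := by
    exact_mod_cast (Module.finrank_pos : 0 < Module.finrank K L)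
  obtain ⟨S, hS, hSb⟩ := hwr L K a b τ hD hK hτ
  have hpt := hni L hLD a b hD hj hAj S hS
  have hT0 : 0 ≤ ∑ v ∈ S, Real.log (Nv v) := Finset.sum_nonneg fun v _ => (log_Nv_pos v).le
  have hH0 : 0 ≤ ht (jj a b) := ht_nonneg _
  have hXp : 0 < Module.finrank ℚ L + ht (jj a b) + ∑ v ∈ S, Real.log (Nv v) := by positivity
  by_cases htor : IsOfFinAddOrder P
  · left
    refine ⟨htor.addOrderOf_pos, ?_⟩
    apply Nat.le_of_dvd (Nat.factorial_pos _)
    apply addOrderOf_dvd_of_nsmul_eq_zero
    funext k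
    have hk : IsOfFinAddOrder (P k) := by
      obtain ⟨n, hn, h⟩ := isOfFinAddOrder_iff_nsmul_eq_zero.1 htor
      exact isOfFinAddOrder_iff_nsmul_eq_zero.2 ⟨n, hn, congrFun h k⟩
    have h0 : chat (P k) = 0 := tors_zero (a := a) (b := b) hD hk
    rcases hpt (P k) with ⟨n, hn, hnN, h⟩ | h
    · obtain ⟨m, hm⟩ := Nat.dvd_factorial hn hnN
      simp only [Pi.smul_apply, Pi.zero_apply]
      rw [hm, mul_comm, mul_nsmul', h, nsmul_zero]
    · rw [h0] at h
      have : 0 < c * (Module.finrank ℚ L + ht (jj a b) + ∑ v ∈ S, Real.log (Nv v)) := by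
        positivity
      linarith
  · right
    refine ⟨htor, ?_⟩
    obtain ⟨Q, -, hQ, hQ2⟩ := reduction hD X hX P htor
    have h1 : c * (Module.finrank ℚ L + ht (jj a b) + ∑ v ∈ S, Real.log (Nv v)) ≤ chat Q := by
      refine (hpt Q).resolve_left ?_
      rintro ⟨n, hn, -, h⟩
      exact hQ (isOfFinAddOrder_iff_nsmul_eq_zero.2 ⟨n, hn, h⟩)
    have h2 := h1.trans hQ2
    set Y : ℝ := Module.finrank ℚ L + ht (jj a b) + ∑ v ∈ S, Real.log (Nv v) with hY
    have hch : 0 ≤ chatM X P := le_trans (by positivity) h2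
    constructor
    · rcases le_total (discSum (sw a b) + ∑ w : InfinitePlace L, (w.mult : ℝ) * arch (τ w) +
        6 * (Real.log |(discr L : ℝ)| - Module.finrank K L * Real.log |(discr K : ℝ)|)) 0
        with h0 | h0
      · exact le_trans (mul_nonpos_of_nonneg_of_nonpos (by positivity) h0)
          (mul_nonneg hG0.le hch)
      · calc min c (c / C) * (discSum (sw a b) +
              ∑ w : InfinitePlace L, (w.mult : ℝ) * arch (τ w) +
              6 * (Real.log |(discr L : ℝ)| - Module.finrank K L * Real.log |(discr K : ℝ)|))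
            ≤ (c / C) * (discSum (sw a b) +
              ∑ w : InfinitePlace L, (w.mult : ℝ) * arch (τ w) +
              6 * (Real.log |(discr L : ℝ)| - Module.finrank K L * Real.log |(discr K : ℝ)|)) :=
              mul_le_mul_of_nonneg_right (min_le_right _ _) h0
          _ ≤ (c / C) * (C * Module.finrank K L * Y) :=
              mul_le_mul_of_nonneg_left hSb (by positivity)
          _ = Module.finrank K L * (c * Y) := by field_simp
          _ ≤ Module.finrank K L * chatM X P := mul_le_mul_of_nonneg_left h2 hG0.le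
    · have h3 : min c (c / C) * Module.finrank ℚ L ≤ c * Y := by
        have h4 : min c (c / C) * Module.finrank ℚ L ≤ c * Module.finrank ℚ L :=
          mul_le_mul_of_nonneg_right (min_le_left _ _) hn.le
        have h5 : c * (Module.finrank ℚ L : ℝ) ≤ c * Y := by
          apply mul_le_mul_of_nonneg_left _ hc.le
          rw [hY]
          linarith
        linarith
      linarith

end Pool.Agent.R407
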