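import Mathlib
import Pool.Agent.Y733.FF.Main

/-!
# The stable Faltings height, the simple poles of `j` and the conductor
-/

set_option autoImplicit false
set_option linter.unusedSectionVars false

namespace Pool.Agent.R407

open NumberField IsDedekindDomain Pool.Agent.H691R3 Pool.Agent.W223.AK Pool.Agent.Y733.LS
  Pool.Agent.Y733.FF
open Pool.Agent.TH876.FH (GoodAt IsPeriod arch jInv Hj_height Hj_norm)

/-- the simple poles of `j` are primes of bad reduction -/
theorem sp_le {K : Type} [Field K] [NumberField K] (E : WeierstrassCurve K) (hE : E.Δ ≠ 0) :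
    sp (E.c₄ ^ 3 / E.Δ) ≤ Real.log (multN E) + Real.log (addN E) / 2 := by
  classical
  set j := E.c₄ ^ 3 / E.Δ with hj
  have s2 := Fs_sp j
  have s4 := supp_mw E hE
  have s5 := supp_aw E hE
  have key : ∑ᶠ v : Pr K, (if Sp j v then Real.log (Nv v) else 0) ≤
      ∑ᶠ v : Pr K, (mw v E + aw v E) := by
    refine finsum_le_finsum' s2 (supp_add s4 s5) fun v => ?_
    have hm := mw_nonneg v E
    have ha := aw_nonneg v E
    split_ifs with h
    · obtain ⟨h2, h3, hv⟩ := h
      have hg : ¬ GoodAt v E := by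
        intro hg
        have h4 := good_int v E hE hg
        rw [← hj, hv] at h4
        linarith [Nv_one_lt v]
      have h6 : v.valuation K 6 = 1 := by
        rw [← fv_one_iff v, show (6 : K) = 2 * 3 by norm_num, map_mul, h2, h3, one_mul]
      by_cases hs : SemiAt v E
      · have e : mw v E = Real.log (Nv v) := if_pos ⟨hg, hs, h6⟩
        linarith
      · have e : aw v E = Real.log (Nv v) := if_pos ⟨hs, h6⟩
        linarith
    · linarith
  rw [sum_add s4 s5] at key
  rw [log_multN E hE, log_addN E hE]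
  have e2 : sp j = ∑ᶠ v : Pr K, if Sp j v then Real.log (Nv v) else 0 := by
    unfold sp
    congr!
  rw [e2]
  linarith

/-- **the stable Faltings height** of all curves whose invariant has enough simple poles -/
theorem stable_frey : ∃ C : ℝ, 0 < C ∧ ∀ (K : Type) [Field K] [NumberField K]
    (E : WeierstrassCurve K) (τ : InfinitePlace K → UpperHalfPlane) (δ : ℝ), E.Δ ≠ 0 →
    IsPeriod (E.c₄ ^ 3 / E.Δ) τ → 0 ≤ δ →
    ht (E.c₄ ^ 3 / E.Δ) ≤ (1 + δ) * sp (E.c₄ ^ 3 / E.Δ) →
    ∑ᶠ v : HeightOneSpectrum (𝓞 K), Real.log (max (FinitePlace.mk v (E.c₄ ^ 3 / E.Δ)) 1) +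
      ∑ w : InfinitePlace K, (w.mult : ℝ) * arch (τ w) ≤
      (1 + δ) * (Real.log (multN E) + Real.log (addN E) / 2) + C * Module.finrank ℚ K := by
  obtain ⟨c, hc0, hc⟩ := arch_le
  refine ⟨c + 1, by positivity, ?_⟩
  intro K _ _ E τ δ hE hτ h0 hsp
  have hn : (0 : ℝ) ≤ Module.finrank ℚ K := Nat.cast_nonneg _
  have h1 := sp_le E hE
  have h2 := hc K _ τ hτ
  have h4 : ht (E.c₄ ^ 3 / E.Δ) =
      ∑ w : InfinitePlace K, (w.mult : ℝ) * Real.log (max (w (E.c₄ ^ 3 / E.Δ)) 1) +
      ∑ᶠ v : HeightOneSpectrum (𝓞 K), Real.log (max (FinitePlace.mk v (E.c₄ ^ 3 / E.Δ)) 1) := by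
    rw [← Hj_height, logHeight_eq, ht_eq_Sa]
  have h5 : (1 + δ) * sp (E.c₄ ^ 3 / E.Δ) ≤
      (1 + δ) * (Real.log (multN E) + Real.log (addN E) / 2) :=
    mul_le_mul_of_nonneg_left h1 (by linarith)
  linarith

end Pool.Agent.R407
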